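import Pool.Agent.H504D.Residue

set_option autoImplicit false

open Finset Pool.Agent.H504R2
open scoped WithZero

namespace Pool.Agent.H504D

section alg

variable {R : Type} [CommRing R]

/-- values of the Dickson polynomials of the first kind -/
def dk (A X : R) : ℕ → R
  | 0 => 2
  | 1 => X
  | m + 2 => X * dk A X (m + 1) - A * dk A X m

/-- difference quotients of the Dickson polynomials -/
def kh (A X Y : R) : ℕ → R
  | 0 => 0
  | 1 => 1
  | m + 2 => dk A X (m + 1) + Y * kh A X Y (m + 1) - A * kh A X Y m

lemma dk_eq_dickson (A X : R) (m : ℕ) : dk A X m = (Polynomial.dickson 1 A m).eval X := by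
  induction m using Nat.twoStepInduction with
  | zero => simp [dk, Polynomial.dickson_zero]; norm_num
  | one => simp [dk]
  | more m h1 h2 =>
    rw [Polynomial.dickson_add_two]
    simp [dk, h1, h2]

lemma dk_sub (A X Y : R) (m : ℕ) : dk A X m - dk A Y m = (X - Y) * kh A X Y m := by
  induction m using Nat.twoStepInduction with
  | zero => simp [dk, kh]
  | one => simp [dk, kh]
  | more m h1 h2 =>
    simp only [dk, kh]
    linear_combination Y * h2 - A * h1

lemma dk_smul (c A X : R) (m : ℕ) : dk (c ^ 2 * A) (c * X) m = c ^ m * dk A X m := by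
  induction m using Nat.twoStepInduction with
  | zero => simp [dk]
  | one => simp [dk]
  | more m h1 h2 =>
    simp only [dk, h1, h2]
    ring

lemma kh_smul (c A X Y : R) (m : ℕ) :
    kh (c ^ 2 * A) (c * X) (c * Y) (m + 1) = c ^ m * kh A X Y (m + 1) := by
  induction m using Nat.twoStepInduction with
  | zero => simp [kh]
  | one => simp [kh, dk]; ring
  | more m h1 h2 =>
    have e1 : kh (c ^ 2 * A) (c * X) (c * Y) (m + 2 + 1) = dk (c ^ 2 * A) (c * X) (m + 2)
      + (c * Y) * kh (c ^ 2 * A) (c * X) (c * Y) (m + 1 + 1) - (c ^ 2 * A) * kh (c ^ 2 * A) (c * X) (c * Y) (m + 1) := rfl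
    have e2 : kh A X Y (m + 2 + 1) = dk A X (m + 2) + Y * kh A X Y (m + 1 + 1) - A * kh A X Y (m + 1) := rfl
    rw [e1, e2, h1, h2, dk_smul]
    ring

lemma dk_zero (X : R) (m : ℕ) : dk 0 X (m + 1) = X ^ (m + 1) := by
  induction m using Nat.twoStepInduction with
  | zero => simp [dk]
  | one => simp [dk]; ring
  | more m h1 h2 =>
    have e1 : dk 0 X (m + 2 + 1) = X * dk 0 X (m + 1 + 1) - 0 * dk 0 X (m + 1) := rfl
    rw [e1, h2]; ring

lemma map_dk {S : Type} [CommRing S] (φ : R →+* S) (A X : R) (m : ℕ) :
    φ (dk A X m) = dk (φ A) (φ X) m := by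
  induction m using Nat.twoStepInduction with
  | zero => exact map_ofNat φ 2
  | one => simp [dk]
  | more m h1 h2 => simp only [dk, map_sub, map_mul, h1, h2]

lemma map_kh {S : Type} [CommRing S] (φ : R →+* S) (A X Y : R) (m : ℕ) :
    φ (kh A X Y m) = kh (φ A) (φ X) (φ Y) m := by
  induction m using Nat.twoStepInduction with
  | zero => simp [kh]
  | one => simp [kh]
  | more m h1 h2 => simp only [kh, map_add, map_sub, map_mul, h1, h2, map_dk]

lemma dk_uu (u w : R) (m : ℕ) : dk (u * w) (u + w) m = u ^ m + w ^ m := by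
  induction m using Nat.twoStepInduction with
  | zero => simp [dk]; norm_num
  | one => simp [dk]
  | more m h1 h2 => simp only [dk, h1, h2]; ring

/-- `∑ a^i b^(m-1-i)` over a commutative ring -/
def gr (m : ℕ) (a b : R) : R := ∑ i ∈ range m, a ^ i * b ^ (m - 1 - i)

lemma gr_succ (m : ℕ) (a b : R) : gr (m + 1) a b = a ^ m + b * gr m a b := by
  unfold gr
  rw [Finset.sum_range_succ, Finset.mul_sum, add_comm]
  congr 1
  · simp
  · apply Finset.sum_congr rfl
    intro i hi
    have := mem_range.1 hi
    rw [show m + 1 - 1 - i = (m - 1 - i) + 1 by omega]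
    ring

lemma gr_rec (m : ℕ) (a b : R) : gr (m + 2) a b = (a + b) * gr (m + 1) a b - a * b * gr m a b := by
  induction m with
  | zero => simp [gr, Finset.sum_range_succ]; ring
  | succ m ih =>
    have h1 := gr_succ (m + 2) a b
    have h2 := gr_succ (m + 1) a b
    have h3 := gr_succ m a b
    have e : m + 1 + 2 = m + 2 + 1 := rfl
    rw [e, h1, ih]
    rw [h3]
    ring

lemma gr_comm (m : ℕ) (a b : R) : gr m a b = gr m b a := (Commute.all a b).geom_sum₂_comm m

lemma gr_succ' (m : ℕ) (a b : R) : gr (m + 1) a b = b ^ m + a * gr m a b := by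
  rw [gr_comm, gr_succ, gr_comm m b a]

lemma kh_diag (u w : R) (m : ℕ) : kh (u * w) (u + w) (u + w) m = m * gr m u w := by
  induction m using Nat.twoStepInduction with
  | zero => simp [kh]
  | one => simp [kh, gr]
  | more m h1 h2 =>
    simp only [kh, h1, h2, dk_uu]
    have h3 := gr_rec m u w
    have h4 := gr_succ m u w
    have h5 := gr_succ' m u w
    push_cast
    rw [h3]
    linear_combination (-u) * h4 - w * h5
lemma kh_zero' (X Y : R) (m : ℕ) : kh 0 X Y (m + 1) = gr (m + 1) X Y := by
  induction m using Nat.twoStepInduction with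
  | zero => simp [kh, gr]
  | one => simp [kh, gr, dk, Finset.sum_range_succ]; ring
  | more m h1 h2 =>
    have e2 : kh 0 X Y (m + 2 + 1) = dk 0 X (m + 1 + 1) + Y * kh 0 X Y (m + 1 + 1) - 0 * kh 0 X Y (m + 1) := rfl
    rw [e2, h2, dk_zero, gr_succ (m + 2)]
    ring

end alg

section field

lemma natCast_ne {k : Type} [Field k] {m p : ℕ} (hchar : (p : k) = 0) (h : Nat.Coprime m p) :
    (m : k) ≠ 0 := by
  intro hm
  have h1 := Nat.gcd_eq_gcd_ab m p
  rw [Nat.coprime_iff_gcd_eq_one.1 h] at h1
  have h2 := congrArg (fun z : ℤ => (z : k)) h1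
  push_cast at h2
  rw [hm, hchar] at h2
  simp at h2

lemma pow_inj_aux {L : Type} [Field L] {m N : ℕ} (h : Nat.Coprime m N) {a b : L} (ha : a ≠ 0) (hb : b ≠ 0)
    (ha' : a ^ N = 1) (hb' : b ^ N = 1) (hab : a ^ m = b ^ m) : a = b := by
  have h1 : (a / b) ^ m = 1 := by rw [div_pow, hab, div_self (pow_ne_zero _ hb)]
  have h2 : (a / b) ^ N = 1 := by rw [div_pow, ha', hb', div_self one_ne_zero]
  have h3 : (a / b) ^ (m.gcd N) = 1 := pow_gcd_eq_one.2 ⟨h1, h2⟩
  rw [Nat.coprime_iff_gcd_eq_one.1 h, pow_one] at h3
  exact (div_eq_one_iff_eq hb).1 h3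

/-- The difference quotients of Dickson polynomials do not vanish on a small finite field. -/
theorem kh_ne_zero_field {k : Type} [Field k] {p q m : ℕ} (hp : p.Prime) (hchar : (p : k) = 0)
    (hpow : ∀ s : k, s ^ q = s) (hq : ∃ f, q = p ^ f) (hm1 : 1 ≤ m) (hmp : Nat.Coprime m p)
    (hmq : Nat.Coprime m (q - 1)) {A x y : k} (hA : A = 0 ∨ Nat.Coprime m (q ^ 2 - 1))
    (hne : ¬ (A = 0 ∧ x = 0 ∧ y = 0)) : kh A x y m ≠ 0 := by
  have hq0 : q ≠ 0 := by
    rintro rfl
    have := hpow 0
    rw [pow_zero] at this
    exact one_ne_zero this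
  have hqpos : 0 < q := Nat.pos_of_ne_zero hq0
  have hmk : (m : k) ≠ 0 := natCast_ne hchar hmp
  have hunit : ∀ s : k, s ≠ 0 → s ^ (q - 1) = 1 := by
    intro s hs
    have h1 : s ^ (q - 1) * s = 1 * s := by
      rw [← pow_succ, one_mul]
      convert hpow s using 2
      omega
    exact mul_right_cancel₀ hs h1
  rcases hA with rfl | hmq2
  · -- the power case
    obtain ⟨m', rfl⟩ : ∃ m', m = m' + 1 := ⟨m - 1, by omega⟩
    rw [kh_zero']
    have hxy : ¬ (x = 0 ∧ y = 0) := fun h => hne ⟨rfl, h.1, h.2⟩
    intro h0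
    by_cases hxe : x = y
    · subst hxe
      have hx0 : x ≠ 0 := fun h => hxy ⟨h, h⟩
      have h1 : gr (m' + 1) x x = ((m' + 1 : ℕ) : k) * x ^ m' := by
        unfold gr
        have : ∀ i ∈ range (m' + 1), x ^ i * x ^ (m' + 1 - 1 - i) = x ^ m' := by
          intro i hi
          rw [← pow_add]
          congr 1
          have := mem_range.1 hi
          omega
        rw [Finset.sum_congr rfl this, Finset.sum_const, card_range, nsmul_eq_mul]
      rw [h1] at h0
      exact (mul_ne_zero hmk (pow_ne_zero _ hx0)) h0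
    · have h1 : x ^ (m' + 1) - y ^ (m' + 1) = 0 := by
        have := (Commute.all x y).mul_geom_sum₂ (m' + 1)
        rw [← this]
        unfold gr at h0
        rw [h0, mul_zero]
      have h2 : x ^ (m' + 1) = y ^ (m' + 1) := sub_eq_zero.1 h1
      have hx0 : x ≠ 0 := by
        rintro rfl
        rw [zero_pow (by omega)] at h2
        exact hxy ⟨rfl, eq_zero_of_pow_eq_zero h2.symm⟩
      have hy0 : y ≠ 0 := by
        rintro rfl
        rw [zero_pow (by omega)] at h2
        exact hxy ⟨eq_zero_of_pow_eq_zero h2, rfl⟩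
      exact hxe (pow_inj_aux hmq hx0 hy0 (hunit x hx0) (hunit y hy0) h2)
  · by_cases hA0 : A = 0
    · -- reduce to the power case: repeat the argument via the first alternative
      subst hA0
      obtain ⟨m', rfl⟩ : ∃ m', m = m' + 1 := ⟨m - 1, by omega⟩
      rw [kh_zero']
      have hxy : ¬ (x = 0 ∧ y = 0) := fun h => hne ⟨rfl, h.1, h.2⟩
      intro h0
      by_cases hxe : x = y
      · subst hxe
        have hx0 : x ≠ 0 := fun h => hxy ⟨h, h⟩
        have h1 : gr (m' + 1) x x = ((m' + 1 : ℕ) : k) * x ^ m' := by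
          unfold gr
          have : ∀ i ∈ range (m' + 1), x ^ i * x ^ (m' + 1 - 1 - i) = x ^ m' := by
            intro i hi
            rw [← pow_add]
            congr 1
            have := mem_range.1 hi
            omega
          rw [Finset.sum_congr rfl this, Finset.sum_const, card_range, nsmul_eq_mul]
        rw [h1] at h0
        exact (mul_ne_zero hmk (pow_ne_zero _ hx0)) h0
      · have h1 : x ^ (m' + 1) - y ^ (m' + 1) = 0 := by
          have := (Commute.all x y).mul_geom_sum₂ (m' + 1)
          rw [← this]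
          unfold gr at h0
          rw [h0, mul_zero]
        have h2 : x ^ (m' + 1) = y ^ (m' + 1) := sub_eq_zero.1 h1
        have hx0 : x ≠ 0 := by
          rintro rfl
          rw [zero_pow (by omega)] at h2
          exact hxy ⟨rfl, eq_zero_of_pow_eq_zero h2.symm⟩
        have hy0 : y ≠ 0 := by
          rintro rfl
          rw [zero_pow (by omega)] at h2
          exact hxy ⟨eq_zero_of_pow_eq_zero h2, rfl⟩
        exact hxe (pow_inj_aux hmq hx0 hy0 (hunit x hx0) (hunit y hy0) h2)
    · -- the proper Dickson case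
      let L := AlgebraicClosure k
      let φ : k →+* L := algebraMap k L
      have hφ : Function.Injective φ := (algebraMap k L).injective
      haveI : Fact p.Prime := ⟨hp⟩
      haveI : CharP L p := (CharP.charP_iff_prime_eq_zero hp).2 (by
        have := congrArg φ hchar
        simpa using this)
      obtain ⟨f, hf⟩ := hq
      have hφq : ∀ s : k, (φ s) ^ q = φ s := fun s => by rw [← map_pow, hpow]
      have hroot : ∀ s : k, ∃ u w : L, u + w = φ s ∧ u * w = φ A ∧ u ≠ 0 ∧ w ≠ 0 ∧
          u ^ (q ^ 2 - 1) = 1 ∧ w ^ (q ^ 2 - 1) = 1 := by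
        intro s
        obtain ⟨u, hu⟩ := IsAlgClosed.exists_root
          (Polynomial.C 1 * Polynomial.X ^ 2 + Polynomial.C (-φ s) * Polynomial.X + Polynomial.C (φ A) : Polynomial L)
          (by rw [Polynomial.degree_quadratic one_ne_zero]; norm_num)
        rw [Polynomial.IsRoot, Polynomial.eval_add, Polynomial.eval_add, Polynomial.eval_mul,
          Polynomial.eval_mul, Polynomial.eval_C, Polynomial.eval_C, Polynomial.eval_C,
          Polynomial.eval_pow, Polynomial.eval_X] at hu
        set w := φ s - u with hw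
        have huw : u * w = φ A := by rw [hw]; linear_combination -hu
        have hsum : u + w = φ s := by rw [hw]; ring
        have hφA : φ A ≠ 0 := fun h => hA0 (hφ (by rw [h, map_zero]))
        have hu0 : u ≠ 0 := by rintro h; rw [h, zero_mul] at huw; exact hφA huw.symm
        have hw0 : w ≠ 0 := by rintro h; rw [h, mul_zero] at huw; exact hφA huw.symm
        have e1 : u ^ q + w ^ q = φ s := by
          rw [← hφq s, ← hsum, hf, add_pow_char_pow]
        have e2 : u ^ q * w ^ q = φ A := by
          rw [← mul_pow, huw, hφq]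
        have e3 : (u ^ q - u) * (u ^ q - w) = 0 := by
          have : (u ^ q - u) * (u ^ q - w) = (u ^ q) ^ 2 - (u + w) * u ^ q + u * w := by ring
          rw [this, hsum, huw, ← e1, ← e2]; ring
        have e4 : (u ^ q) ^ q = u ∧ (w ^ q) ^ q = w := by
          rcases mul_eq_zero.1 e3 with h | h
          · have h1 : u ^ q = u := sub_eq_zero.1 h
            have h2 : w ^ q = w := by
              have : u ^ q + w ^ q = u + w := by rw [e1, hsum]
              rw [h1] at this
              exact add_left_cancel this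
            rw [h1, h2]; exact ⟨h1, h2⟩
          · have h1 : u ^ q = w := sub_eq_zero.1 h
            have h2 : w ^ q = u := by
              have : u ^ q + w ^ q = u + w := by rw [e1, hsum]
              rw [h1, add_comm u w] at this
              exact add_left_cancel this
            rw [h1, h2]; exact ⟨rfl, h1⟩
        have hq2 : 1 ≤ q ^ 2 := Nat.one_le_pow _ _ hqpos
        refine ⟨u, w, hsum, huw, hu0, hw0, ?_, ?_⟩
        · have h1 : u ^ (q ^ 2 - 1) * u = 1 * u := by
            rw [← pow_succ, Nat.sub_add_cancel hq2, pow_two, pow_mul, e4.1, one_mul]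
          exact mul_right_cancel₀ hu0 h1
        · have h1 : w ^ (q ^ 2 - 1) * w = 1 * w := by
            rw [← pow_succ, Nat.sub_add_cancel hq2, pow_two, pow_mul, e4.2, one_mul]
          exact mul_right_cancel₀ hw0 h1
      intro h0
      obtain ⟨u, u', hu, huu, hu0, hu0', hup, hup'⟩ := hroot x
      have hmL : (m : L) ≠ 0 := natCast_ne (p := p) (by
        have := congrArg φ hchar
        simpa using this) hmp
      have h0' : kh (φ A) (φ x) (φ y) m = 0 := by rw [← map_kh, h0, map_zero]
      by_cases hxy : x = y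
      · subst hxy
        rw [← hu, ← huu, kh_diag] at h0'
        have h1 : gr m u u' = 0 := (mul_eq_zero.1 h0').resolve_left hmL
        by_cases huu' : u = u'
        · subst huu'
          have h2 : gr m u u = (m : L) * u ^ (m - 1) := by
            unfold gr
            have : ∀ i ∈ range m, u ^ i * u ^ (m - 1 - i) = u ^ (m - 1) := by
              intro i hi
              rw [← pow_add]
              congr 1
              have := mem_range.1 hi
              omega
            rw [Finset.sum_congr rfl this, Finset.sum_const, card_range, nsmul_eq_mul]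
          rw [h2] at h1
          exact (mul_ne_zero hmL (pow_ne_zero _ hu0)) h1
        · have h2 : u ^ m - u' ^ m = 0 := by
            rw [← (Commute.all u u').mul_geom_sum₂ m]
            unfold gr at h1
            rw [h1, mul_zero]
          exact huu' (pow_inj_aux hmq2 hu0 hu0' hup hup' (sub_eq_zero.1 h2))
      · obtain ⟨w, w', hw, hww, hw0, hw0', hwp, hwp'⟩ := hroot y
        have h1 : dk (φ A) (φ x) m = dk (φ A) (φ y) m := by
          have := dk_sub (φ A) (φ x) (φ y) m
          rw [h0', mul_zero] at this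
          exact sub_eq_zero.1 this
        have h2 : dk (φ A) (φ x) m = u ^ m + u' ^ m := by rw [← huu, ← hu, dk_uu]
        have h3 : dk (φ A) (φ y) m = w ^ m + w' ^ m := by rw [← hww, ← hw, dk_uu]
        have h4 : u ^ m * u' ^ m = w ^ m * w' ^ m := by rw [← mul_pow, ← mul_pow, huu, hww]
        have h5 : (u ^ m - w ^ m) * (w ^ m - u' ^ m) = 0 := by
          have h6 : u ^ m + u' ^ m = w ^ m + w' ^ m := by rw [← h2, ← h3, h1]
          linear_combination w ^ m * h6 - h4
        rcases mul_eq_zero.1 h5 with h6 | h6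
        · have h7 : u = w := pow_inj_aux hmq2 hu0 hw0 hup hwp (sub_eq_zero.1 h6)
          have h8 : u' = w' := by
            rw [← hww, h7] at huu
            exact mul_left_cancel₀ hw0 huu
          apply hxy
          apply hφ
          rw [← hu, ← hw, h7, h8]
        · have h7 : w = u' := pow_inj_aux hmq2 hw0 hu0' hwp hup' (sub_eq_zero.1 h6)
          have h8 : u = w' := by
            rw [← hww, ← h7, mul_comm] at huu
            exact mul_left_cancel₀ hw0 huu
          apply hxy
          apply hφ
          rw [← hu, ← hw, h7, h8, add_comm]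

end field

end Pool.Agent.H504D
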