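import Pool.Agent.H504D.HenonLocal
import Pool.Agent.H504D.HenonCount
import Pool.Agent.H504R2.Primes

set_option autoImplicit false

open Finset Pool.Agent.H504R2
open scoped WithZero

namespace Pool.Agent.H504D

/-- primes that are primitive roots modulo all the prime factors of `d` -/
theorem exists_good_prime' (d : ℕ) (hd : d ≠ 0) (M : ℕ) :
    ∃ p : ℕ, M < p ∧ p.Prime ∧ Nat.Coprime p d ∧
      ∀ r : ℕ, r.Prime → r ∣ d → ∀ f, 0 < f → f < r - 1 → ¬ r ∣ p ^ f - 1 := by
  classical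
  have hch : ∀ r : ℕ, ∃ g : ℕ, r.Prime → Nat.Coprime g r ∧ ∀ f, 0 < f → f < r - 1 → ¬ (g ^ f ≡ 1 [MOD r]) := by
    intro r
    by_cases hr : r.Prime
    · obtain ⟨g, hg⟩ := exists_prim_root r hr
      exact ⟨g, fun _ => hg⟩
    · exact ⟨0, fun h => absurd h hr⟩
  choose g hg using hch
  have hs : ∀ i ∈ d.primeFactors, (fun i : ℕ => i) i ≠ 0 := fun i hi =>
    (Nat.prime_of_mem_primeFactors hi).ne_zero
  have hpp : Set.Pairwise (d.primeFactors : Set ℕ) (Function.onFun Nat.Coprime (fun i : ℕ => i)) := by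
    intro a ha b hb hab
    exact (Nat.coprime_primes (Nat.prime_of_mem_primeFactors ha) (Nat.prime_of_mem_primeFactors hb)).2 hab
  obtain ⟨k, hk⟩ := Nat.chineseRemainderOfFinset g (fun i => i) d.primeFactors hs hpp
  have hkd : Nat.Coprime k d := by
    rw [Nat.coprime_iff_gcd_eq_one]
    by_contra hne
    obtain ⟨r, hr, hrd⟩ := Nat.exists_prime_and_dvd hne
    have h1 : r ∣ d := hrd.trans (Nat.gcd_dvd_right _ _)
    have h2 : r ∣ k := hrd.trans (Nat.gcd_dvd_left _ _)
    have h3 := hk r (Nat.mem_primeFactors.2 ⟨hr, h1, hd⟩)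
    have h4 : r ∣ g r := by
      have : k ≡ g r [MOD r] := h3
      exact (Nat.ModEq.dvd_iff this (dvd_refl r)).1 h2
    have h5 := (hg r hr).1
    have := Nat.Coprime.eq_one_of_dvd h5.symm h4
    exact hr.one_lt.ne' this
  have hd0 : NeZero d := ⟨hd⟩
  have hunit : IsUnit (k : ZMod d) := (ZMod.isUnit_iff_coprime k d).2 hkd
  obtain ⟨p, hpM, hp, hpk⟩ := Nat.forall_exists_prime_gt_and_eq_mod hunit M
  have hpk' : p ≡ k [MOD d] := (ZMod.natCast_eq_natCast_iff _ _ _).1 hpk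
  refine ⟨p, hpM, hp, ?_, ?_⟩
  · exact (Nat.Coprime.symm ((Nat.ModEq.gcd_eq hpk').trans hkd)).symm
  · intro r hr h1 f hf hf' h2
    have h3 : k ≡ g r [MOD r] := hk r (Nat.mem_primeFactors.2 ⟨hr, h1, hd⟩)
    have h4 : p ≡ g r [MOD r] := (hpk'.of_dvd h1).trans h3
    have h5 : p ^ f ≡ g r ^ f [MOD r] := h4.pow f
    have h6 : p ^ f ≡ 1 [MOD r] :=
      ((Nat.modEq_iff_dvd' (Nat.one_le_pow _ _ hp.pos)).2 h2).symm
    exact (hg r hr).2 f hf hf' (h5.symm.trans h6)

/-- `Exc N d F`: the polynomial `F` of degree `d` is a composition of affine polynomials, of powers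
`X ^ m` such that all prime factors of `m` exceed `N + 1`, and of Dickson polynomials of the first
kind `D_m(X, a)` such that all prime factors of `m` exceed `2 N + 1`. -/
inductive Exc {K : Type} [Field K] (N : ℕ) : ℕ → Polynomial K → Prop
  | affine (a b : K) (ha : a ≠ 0) : Exc N 1 (Polynomial.C a * Polynomial.X + Polynomial.C b)
  | power (m : ℕ) (hm : 1 ≤ m) (h : ∀ r : ℕ, r.Prime → r ∣ m → N + 1 < r) :
      Exc N m (Polynomial.X ^ m)
  | dickson (m : ℕ) (a : K) (hm : 1 ≤ m) (h : ∀ r : ℕ, r.Prime → r ∣ m → 2 * N + 1 < r) :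
      Exc N m (Polynomial.dickson 1 a m)
  | comp (d e : ℕ) (F G : Polynomial K) (hF : Exc N d F) (hG : Exc N e G) :
      Exc N (d * e) (F.comp G)

lemma Exc.map {K L : Type} [Field K] [Field L] {N d : ℕ} {F : Polynomial K} (h : Exc N d F)
    (φ : K →+* L) : Exc N d (F.map φ) := by
  induction h with
  | affine a b ha =>
    have : (Polynomial.C a * Polynomial.X + Polynomial.C b).map φ =
        Polynomial.C (φ a) * Polynomial.X + Polynomial.C (φ b) := by simp
    rw [this]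
    exact Exc.affine _ _ ((map_ne_zero φ).2 ha)
  | power m hm h =>
    rw [Polynomial.map_pow, Polynomial.map_X]
    exact Exc.power m hm h
  | dickson m a hm h =>
    rw [Polynomial.map_dickson]
    exact Exc.dickson m _ hm h
  | comp d e F G hF hG ihF ihG =>
    rw [Polynomial.map_comp]
    exact Exc.comp d e _ _ ihF ihG

lemma Exc.tame {K : Type} [Field K] {v : Valuation K ℤᵐ⁰} {p f N d0 : ℕ} (hv : IsPlace v p (p ^ f))
    (hp : p.Prime) (hf1 : 1 ≤ f) (hf : f ≤ N) (hpd : Nat.Coprime p d0)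
    (hr : ∀ r : ℕ, r.Prime → r ∣ d0 → ∀ f, 0 < f → f < r - 1 → ¬ r ∣ p ^ f - 1)
    {d : ℕ} {F : Polynomial K} (h : Exc N d F) (hd : d ∣ d0) : Nonempty (Tame v (fun x => F.eval x)) := by
  have hcop : ∀ m c : ℕ, m ∣ d0 → (∀ r : ℕ, r.Prime → r ∣ m → c * N + 1 < r) → 1 ≤ c →
      Nat.Coprime m (p ^ (c * f) - 1) := by
    intro m c hm hmr hc
    rw [Nat.coprime_iff_gcd_eq_one]
    by_contra hne
    obtain ⟨r, hrp, hrd⟩ := Nat.exists_prime_and_dvd hne
    have h1 : r ∣ m := hrd.trans (Nat.gcd_dvd_left _ _)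
    have h2 : r ∣ p ^ (c * f) - 1 := hrd.trans (Nat.gcd_dvd_right _ _)
    have h3 := hmr r hrp h1
    have h4 : c * f ≤ c * N := Nat.mul_le_mul_left _ hf
    exact hr r hrp (h1.trans hm) (c * f) (Nat.mul_pos hc hf1) (by omega) h2
  induction h with
  | affine a b ha =>
    refine ⟨?_⟩
    have : (fun x => (Polynomial.C a * Polynomial.X + Polynomial.C b).eval x) = fun x => a * x + b := by
      funext x; simp
    rw [this]
    exact Tame.affine a b ha
  | power m hm h =>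
    have hA : Adm p (p ^ f) m (0 : K) := by
      refine ⟨hm, Nat.Coprime.coprime_dvd_left hd hpd.symm, ?_, Or.inl rfl⟩
      have := hcop m 1 hd (by simpa using h) le_rfl
      rwa [one_mul] at this
    refine ⟨?_⟩
    have : (fun x => (Polynomial.X ^ m : Polynomial K).eval x) = fun x => dk 0 x m := by
      funext x
      obtain ⟨m', rfl⟩ : ∃ m', m = m' + 1 := ⟨m - 1, by omega⟩
      rw [dk_zero]; simp
    rw [this]
    exact Tame.dickson hv hp ⟨f, rfl⟩ hA
  | dickson m a hm h =>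
    have hA : Adm p (p ^ f) m a := by
      refine ⟨hm, Nat.Coprime.coprime_dvd_left hd hpd.symm, ?_, Or.inr ?_⟩
      · have := hcop m 1 hd (fun r hr1 hr2 => by have := h r hr1 hr2; omega) le_rfl
        rwa [one_mul] at this
      · have := hcop m 2 hd h (by norm_num)
        rwa [mul_comm 2 f, pow_mul] at this
    refine ⟨?_⟩
    have : (fun x => (Polynomial.dickson 1 a m : Polynomial K).eval x) = fun x => dk a x m := by
      funext x
      rw [dk_eq_dickson]
    rw [this]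
    exact Tame.dickson hv hp ⟨f, rfl⟩ hA
  | comp d e F G hF hG ihF ihG =>
    obtain ⟨TF⟩ := ihF ((Dvd.intro _ rfl).trans hd)
    obtain ⟨TG⟩ := ihG ((Dvd.intro_left _ rfl).trans hd)
    refine ⟨?_⟩
    have : (fun x => (F.comp G).eval x) = fun x => F.eval (G.eval x) := by
      funext x; rw [Polynomial.eval_comp]
    rw [this]
    exact TG.comp TF

lemma neg_one_sq_mod (n c : ℕ) (hn : 0 < n) : c * (n - 1) * (n - 1) ≡ c [MOD n] := by
  obtain ⟨n', rfl⟩ : ∃ n', n = n' + 1 := ⟨n - 1, by omega⟩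
  rw [Nat.add_sub_cancel]
  apply (Nat.modEq_iff_dvd).2
  exact ⟨c * (1 - n'), by push_cast; ring⟩

/-- local theorem without restriction on `δ` -/
theorem henon_local' {K : Type} [Field K] {v : Valuation K ℤᵐ⁰} {p q : ℕ} (hv : IsPlace v p q)
    (hp : p.Prime) {φ : K → K} (T : Tame v φ) {δ : K} (hδ : δ ≠ 0) {y : ℕ → K} {n : ℕ} (hn : 0 < n)
    (per : ∀ t, y (t + n) = y t) (hrec : ∀ t, y (t + 2) = φ (y (t + 1)) - δ * y t) :
    ∃ T' E : ℕ, 1 ≤ T' ∧ T' ≤ q ^ 6 ∧ ∀ t, y (t + T' * p ^ E) = y t := by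
  rcases le_or_gt (v δ) 1 with h | h
  · exact henon_local hv hp T h hn per hrec
  · have hδ' : v δ⁻¹ ≤ 1 := by
      rw [map_inv₀]
      exact inv_le_one_of_one_le₀ h.le
    have T2 : Tame v (fun x => δ⁻¹ * φ x + 0) := T.comp (Tame.affine δ⁻¹ 0 (inv_ne_zero hδ))
    obtain ⟨T', E, hT1, hT2, hall⟩ := henon_local hv hp T2 hδ' (y := fun t => y (t * (n - 1))) hn
      (by
        intro t
        show y ((t + n) * (n - 1)) = y (t * (n - 1))
        apply per_mod per
        show ((t + n) * (n - 1)) % n = (t * (n - 1)) % n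
        rw [Nat.add_mul, Nat.add_mul_mod_self_left])
      (by
        intro t
        show y ((t + 2) * (n - 1)) = δ⁻¹ * φ (y ((t + 1) * (n - 1))) + 0 - δ⁻¹ * y (t * (n - 1))
        have h1 := hrec ((t + 2) * (n - 1))
        have e1 : y ((t + 2) * (n - 1) + 1) = y ((t + 1) * (n - 1)) := by
          rw [← per ((t + 1) * (n - 1))]
          congr 1
          rw [show (t + 2) * (n - 1) = (t + 1) * (n - 1) + (n - 1) by ring]
          omega
        have e2 : y ((t + 2) * (n - 1) + 2) = y (t * (n - 1)) := by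
          rw [← per (t * (n - 1)), ← per (t * (n - 1) + n)]
          congr 1
          rw [show (t + 2) * (n - 1) = t * (n - 1) + (n - 1) + (n - 1) by ring]
          omega
        rw [e1, e2] at h1
        rw [h1]
        field_simp
        ring)
    refine ⟨T', E, hT1, hT2, ?_⟩
    intro u
    set M := T' * p ^ E with hM
    have hall' : ∀ s t, y ((t + M * s) * (n - 1)) = y (t * (n - 1)) := by
      intro s t
      induction s with
      | zero => simp
      | succ s ih =>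
        rw [show t + M * (s + 1) = t + M * s + M by ring]
        rw [← ih]
        exact hall (t + M * s)
    have h1 : y (u + M) = y ((u + M) * (n - 1) * (n - 1)) := per_mod per (neg_one_sq_mod n _ hn).symm
    have h2 : y u = y (u * (n - 1) * (n - 1)) := per_mod per (neg_one_sq_mod n _ hn).symm
    rw [h1, h2, show (u + M) * (n - 1) = u * (n - 1) + M * (n - 1) by ring]
    exact hall' (n - 1) (u * (n - 1))

/-- uniform bound for periods -/
theorem henon_period (N d : ℕ) (hd : d ≠ 0) :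
    ∃ N0 : ℕ, ∀ (L : Type) [Field L] [NumberField L], Module.finrank ℚ L ≤ N →
      ∀ (F : Polynomial L) (δ : L), δ ≠ 0 → Exc N d F → ∀ (y : ℕ → L) (n : ℕ), 0 < n →
        (∀ t, y (t + n) = y t) → (∀ t, y (t + 2) = F.eval (y (t + 1)) - δ * y t) →
        ∃ m, 0 < m ∧ m ≤ N0 ∧ ∀ t, y (t + m) = y t := by
  classical
  obtain ⟨p1, -, hp1, hp1d, hp1r⟩ := exists_good_prime' d hd 1
  obtain ⟨p2, hp12, hp2, hp2d, hp2r⟩ := exists_good_prime' d hd p1
  refine ⟨(p1 ^ N) ^ 6 * (p2 ^ N) ^ 6, ?_⟩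
  intro L _ _ hL F δ hδ hF y n hn per hrec
  obtain ⟨v1, f1, hf1, hf1', hv1⟩ := exists_place L p1 hp1
  obtain ⟨v2, f2, hf2, hf2', hv2⟩ := exists_place L p2 hp2
  obtain ⟨T1⟩ := hF.tame hv1 hp1 hf1 (by omega) hp1d hp1r (dvd_refl d)
  obtain ⟨T2⟩ := hF.tame hv2 hp2 hf2 (by omega) hp2d hp2r (dvd_refl d)
  obtain ⟨t1, E1, ht1, ht1', hall1⟩ := henon_local' hv1 hp1 T1 hδ hn per hrec
  obtain ⟨t2, E2, ht2, ht2', hall2⟩ := henon_local' hv2 hp2 T2 hδ hn per hrec
  have hex : ∃ m, 0 < m ∧ ∀ t, y (t + m) = y t := ⟨n, hn, per⟩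
  obtain ⟨hm0, hmy⟩ := Nat.find_spec hex
  set m := Nat.find hex with hm
  have hdvd : ∀ M, (∀ t, y (t + M) = y t) → m ∣ M := by
    intro M hM
    by_contra hcon
    have h1 : 0 < M % m := Nat.pos_of_ne_zero fun h => hcon (Nat.dvd_of_mod_eq_zero h)
    have h2 : M % m < m := Nat.mod_lt _ hm0
    apply Nat.find_min hex h2
    refine ⟨h1, fun t => ?_⟩
    have h3 : y (t + M % m) = y (t + M) := by
      apply per_mod hmy
      show (t + M % m) % m = (t + M) % m
      rw [Nat.add_mod, Nat.mod_mod, ← Nat.add_mod]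
    rw [h3, hM]
  have h1 := dvd_of_two_primes hp1 hp2 (by omega) (hdvd _ hall1) (hdvd _ hall2)
  refine ⟨m, hm0, ?_, hmy⟩
  have hq1 : p1 ^ f1 ≤ p1 ^ N := Nat.pow_le_pow_right hp1.pos (by omega)
  have hq2 : p2 ^ f2 ≤ p2 ^ N := Nat.pow_le_pow_right hp2.pos (by omega)
  calc m ≤ t1 * t2 := Nat.le_of_dvd (Nat.mul_pos ht1 ht2) h1
    _ ≤ (p1 ^ f1) ^ 6 * (p2 ^ f2) ^ 6 := Nat.mul_le_mul ht1' ht2'
    _ ≤ _ := by gcongr

end Pool.Agent.H504D
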