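import Pool.Agent.H504D.Tame

set_option autoImplicit false

open Finset Pool.Agent.H504R2
open scoped WithZero

namespace Pool.Agent.H504D

variable {K : Type} [Field K] {v : Valuation K ℤᵐ⁰} {p q : ℕ}

/-- sup norm on `K²` -/
def nrm (v : Valuation K ℤᵐ⁰) (x : Fin 2 → K) : ℤᵐ⁰ := max (v (x 0)) (v (x 1))

lemma nrm_add_lt {x y : Fin 2 → K} {c : ℤᵐ⁰} (hx : nrm v x < c) (hy : nrm v y < c) : nrm v (x + y) < c := by
  unfold nrm at *
  rw [max_lt_iff] at *
  exact ⟨Valuation.map_add_lt _ hx.1 hy.1, Valuation.map_add_lt _ hx.2 hy.2⟩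

lemma nrm_sub_lt {x y : Fin 2 → K} {c : ℤᵐ⁰} (hx : nrm v x < c) (hy : nrm v y < c) : nrm v (x - y) < c := by
  unfold nrm at *
  rw [max_lt_iff] at *
  exact ⟨Valuation.map_sub_lt _ hx.1 hy.1, Valuation.map_sub_lt _ hx.2 hy.2⟩

lemma nrm_swap (x y : Fin 2 → K) : nrm v (x - y) = nrm v (y - x) := by
  unfold nrm
  simp only [Pi.sub_apply]
  rw [Valuation.map_sub_swap, Valuation.map_sub_swap v (x 1)]

lemma nrm_eq_zero {x : Fin 2 → K} (h : nrm v x = 0) : x = 0 := by
  unfold nrm at h
  have h0 : v (x 0) = 0 := le_antisymm (h ▸ le_max_left _ _) zero_le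
  have h1 : v (x 1) = 0 := le_antisymm (h ▸ le_max_right _ _) zero_le
  ext i
  fin_cases i
  · exact (Valuation.zero_iff v).1 h0
  · exact (Valuation.zero_iff v).1 h1

/-- the action of an integral matrix -/
def act (A : Matrix (Fin 2) (Fin 2) v.valuationSubring) (x : Fin 2 → K) : Fin 2 → K :=
  fun i => (A i 0 : K) * x 0 + (A i 1 : K) * x 1

lemma act_mul (A B : Matrix (Fin 2) (Fin 2) v.valuationSubring) (x : Fin 2 → K) :
    act (A * B) x = act A (act B x) := by
  unfold act
  ext i
  simp only [Matrix.mul_apply, Fin.sum_univ_two]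
  push_cast
  ring

lemma act_one (x : Fin 2 → K) : act (1 : Matrix (Fin 2) (Fin 2) v.valuationSubring) x = x := by
  unfold act
  ext i
  fin_cases i
  · show (((1 : Matrix (Fin 2) (Fin 2) v.valuationSubring) 0 0 : v.valuationSubring) : K) * x 0 +
      (((1 : Matrix (Fin 2) (Fin 2) v.valuationSubring) 0 1 : v.valuationSubring) : K) * x 1 = x 0
    rw [Matrix.one_apply_eq, Matrix.one_apply_ne (by decide)]
    simp
  · show (((1 : Matrix (Fin 2) (Fin 2) v.valuationSubring) 1 0 : v.valuationSubring) : K) * x 0 +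
      (((1 : Matrix (Fin 2) (Fin 2) v.valuationSubring) 1 1 : v.valuationSubring) : K) * x 1 = x 1
    rw [Matrix.one_apply_eq, Matrix.one_apply_ne (by decide)]
    simp

lemma act_sub (A : Matrix (Fin 2) (Fin 2) v.valuationSubring) (x y : Fin 2 → K) :
    act A (x - y) = act A x - act A y := by
  unfold act
  ext i
  simp only [Pi.sub_apply]
  ring

lemma act_sub' (A B : Matrix (Fin 2) (Fin 2) v.valuationSubring) (x : Fin 2 → K) :
    act (A - B) x = act A x - act B x := by
  unfold act
  ext i
  simp only [Pi.sub_apply, Matrix.sub_apply]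
  push_cast
  ring

lemma act_le (A : Matrix (Fin 2) (Fin 2) v.valuationSubring) (x : Fin 2 → K) :
    nrm v (act A x) ≤ nrm v x := by
  have key : ∀ i, v (act A x i) ≤ nrm v x := by
    intro i
    unfold act nrm
    refine (Valuation.map_add _ _ _).trans (max_le ?_ ?_)
    · rw [map_mul]
      calc v (A i 0 : K) * v (x 0) ≤ 1 * v (x 0) := mul_le_mul' (A i 0).2 le_rfl
        _ ≤ _ := by rw [one_mul]; exact le_max_left _ _
    · rw [map_mul]
      calc v (A i 1 : K) * v (x 1) ≤ 1 * v (x 1) := mul_le_mul' (A i 1).2 le_rfl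
        _ ≤ _ := by rw [one_mul]; exact le_max_right _ _
  exact max_le (key 0) (key 1)

lemma act_lt (A : Matrix (Fin 2) (Fin 2) v.valuationSubring) (hA : ∀ i j, v (A i j : K) < 1)
    {x : Fin 2 → K} (hx : 0 < nrm v x) : nrm v (act A x) < nrm v x := by
  have key : ∀ i, v (act A x i) < nrm v x := by
    intro i
    have h1 : ∀ j, v (A i j : K) * v (x j) < nrm v x := by
      intro j
      have hle : v (x j) ≤ nrm v x := by
        unfold nrm
        fin_cases j
        · exact le_max_left _ _
        · exact le_max_right _ _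
      calc v (A i j : K) * v (x j) ≤ v (A i j : K) * nrm v x := mul_le_mul' le_rfl hle
        _ < 1 * nrm v x := mul_lt_mul_of_pos_right (hA i j) hx
        _ = _ := one_mul _
    apply Valuation.map_add_lt
    · rw [map_mul]; exact h1 0
    · rw [map_mul]; exact h1 1
  exact max_lt (key 0) (key 1)

/-- difference vectors of a sequence -/
def Del (y : ℕ → K) (i j : ℕ) : Fin 2 → K := ![y i - y j, y (i + 1) - y (j + 1)]

lemma per_mod {y : ℕ → K} {n : ℕ} (per : ∀ t, y (t + n) = y t) {a b : ℕ} (h : a ≡ b [MOD n]) :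
    y a = y b := by
  have key : ∀ s t, y (t + n * s) = y t := by
    intro s t
    induction s with
    | zero => simp
    | succ s ih => rw [show t + n * (s + 1) = t + n * s + n by ring, per, ih]
  have h1 : y a = y (a % n) := by
    conv_lhs => rw [← Nat.mod_add_div a n]
    exact key _ _
  have h2 : y b = y (b % n) := by
    conv_lhs => rw [← Nat.mod_add_div b n]
    exact key _ _
  have h3 : a % n = b % n := h
  rw [h1, h2, h3]

/-- The local theorem for Hénon recurrences. -/
theorem henon_local (hv : IsPlace v p q) (hp : p.Prime) {φ : K → K} (T : Tame v φ) {δ : K}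
    (hδ : v δ ≤ 1) {y : ℕ → K} {n : ℕ} (hn : 0 < n) (per : ∀ t, y (t + n) = y t)
    (hrec : ∀ t, y (t + 2) = φ (y (t + 1)) - δ * y t) :
    ∃ T' E : ℕ, 1 ≤ T' ∧ T' ≤ q ^ 6 ∧ ∀ t, y (t + T' * p ^ E) = y t := by
  classical
  have hq2 := two_le_q hv
  -- a pair of maximal distance
  obtain ⟨⟨i0, j0⟩, -, hmax0⟩ := exists_max_image (range n ×ˢ range n)
    (fun x => v (y x.1 - y x.2)) ⟨(0, 0), by simp [hn]⟩
  simp only at hmax0
  have hmax : ∀ i j, v (y i - y j) ≤ v (y i0 - y j0) := by
    intro i j
    have h1 : y i = y (i % n) := per_mod per (Nat.mod_modEq _ _).symm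
    have h2 : y j = y (j % n) := per_mod per (Nat.mod_modEq _ _).symm
    rw [h1, h2]
    exact hmax0 (i % n, j % n) (by simp [Nat.mod_lt _ hn])
  set a := y i0 with ha
  set b := y j0 with hb
  by_cases hab : a = b
  · refine ⟨1, 0, le_rfl, Nat.one_le_pow _ _ (by omega), ?_⟩
    intro t
    have := hmax (t + 1 * p ^ 0) t
    rw [hab, sub_self, map_zero, le_zero_iff, Valuation.zero_iff] at this
    exact sub_eq_zero.1 this
  have hR : 0 < v (a - b) := Tame.pos_of_ne hab
  have hnea : ∀ i, v (y i - a) ≤ v (a - b) := fun i => hmax i i0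
  -- the cofactors are bounded by one
  have hH : v (T.h a b) ≤ 1 := by
    have ei : y (i0 + (n - 1) + 2) = φ a - δ * y (i0 + (n - 1)) := by
      rw [hrec, show i0 + (n - 1) + 1 = i0 + n by omega, per]
    have ej : y (j0 + (n - 1) + 2) = φ b - δ * y (j0 + (n - 1)) := by
      rw [hrec, show j0 + (n - 1) + 1 = j0 + n by omega, per]
    have h1 : (a - b) * T.h a b = (y (i0 + (n - 1) + 2) - y (j0 + (n - 1) + 2)) +
        δ * (y (i0 + (n - 1)) - y (j0 + (n - 1))) := by
      rw [← T.eq, ei, ej]; ring
    have h2 : v (a - b) * v (T.h a b) ≤ v (a - b) * 1 := by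
      rw [← map_mul, h1, mul_one]
      refine (Valuation.map_add _ _ _).trans (max_le (hmax _ _) ?_)
      rw [map_mul]
      calc v δ * v (y (i0 + (n - 1)) - y (j0 + (n - 1))) ≤ 1 * v (a - b) := mul_le_mul' hδ (hmax _ _)
        _ = _ := one_mul _
    exact le_of_mul_le_mul_left h2 hR
  have hhle : ∀ i j, v (T.h (y i) (y j)) ≤ 1 := fun i j => (T.le_max hab (hnea i) (hnea j)).trans hH
  -- the recurrence for differences
  have hdiff : ∀ i j, y (i + 2) - y (j + 2) = (y (i + 1) - y (j + 1)) * T.h (y (i + 1)) (y (j + 1)) -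
      δ * (y i - y j) := by
    intro i j; rw [hrec, hrec, ← T.eq]; ring
  have hN0 : ∀ i j, nrm v (Del y i j) = max (v (y i - y j)) (v (y (i + 1) - y (j + 1))) := fun i j => rfl
  have hNle1 : ∀ i j, nrm v (Del y (i + 1) (j + 1)) ≤ nrm v (Del y i j) := by
    intro i j
    rw [hN0, hN0]
    apply max_le (le_max_right _ _)
    rw [show i + 1 + 1 = i + 2 by ring, show j + 1 + 1 = j + 2 by ring, hdiff]
    refine (Valuation.map_sub _ _ _).trans (max_le ?_ ?_)
    · rw [map_mul]
      calc _ ≤ v (y (i + 1) - y (j + 1)) * 1 := mul_le_mul' le_rfl (hhle _ _)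
        _ ≤ _ := by rw [mul_one]; exact le_max_right _ _
    · rw [map_mul]
      calc _ ≤ 1 * v (y i - y j) := mul_le_mul' hδ le_rfl
        _ ≤ _ := by rw [one_mul]; exact le_max_left _ _
  have hNle : ∀ s i j, nrm v (Del y (i + s) (j + s)) ≤ nrm v (Del y i j) := by
    intro s i j
    induction s with
    | zero => exact le_rfl
    | succ s ih => exact (hNle1 _ _).trans ih
  have hDper : ∀ {i i' j j' : ℕ}, i ≡ i' [MOD n] → j ≡ j' [MOD n] → Del y i j = Del y i' j' := by
    intro i i' j j' h1 h2
    unfold Del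
    rw [per_mod per h1, per_mod per h2, per_mod per (h1.add_right 1), per_mod per (h2.add_right 1)]
  have hmodn : ∀ i s, i + s * n ≡ i [MOD n] := fun i s => by
    show (i + s * n) % n = i % n
    rw [Nat.add_mul_mod_self_right]
  have hN : ∀ s i j, nrm v (Del y (i + s) (j + s)) = nrm v (Del y i j) := by
    intro s i j
    apply le_antisymm (hNle s i j)
    have h1 : Del y i j = Del y (i + s * n) (j + s * n) := (hDper (hmodn _ _) (hmodn _ _)).symm
    rw [h1]
    have h2 : s ≤ s * n := Nat.le_mul_of_pos_right s hn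
    have h3 := hNle (s * n - s) (i + s) (j + s)
    rw [show i + s + (s * n - s) = i + s * n by omega, show j + s + (s * n - s) = j + s * n by omega] at h3
    exact h3
  -- pigeonhole on residue classes
  obtain ⟨r⟩ := exists_res hv
  letI := r.fld
  haveI := r.fin
  letI := Fintype.ofFinite r.k
  have hcardk : Fintype.card r.k ≤ q := by rw [← Nat.card_eq_fintype_card]; exact r.card
  have hzle : ∀ i, v ((y i - a) / (a - b)) ≤ 1 := by
    intro i; rw [map_div₀]; exact (div_le_one₀ hR).2 (hnea i)
  let z : ℕ → v.valuationSubring := fun i => ⟨(y i - a) / (a - b), hzle i⟩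
  have hz : ∀ i j, r.red (z i) = r.red (z j) → v (y i - y j) < v (a - b) := by
    intro i j h
    have h1 : r.red (z i - z j) = 0 := by rw [map_sub, h, sub_self]
    rw [r.ker] at h1
    have h2 : ((z i - z j : v.valuationSubring) : K) = (y i - y j) / (a - b) := by
      show (y i - a) / (a - b) - (y j - a) / (a - b) = _
      rw [← sub_div]; congr 1; ring
    rw [h2, map_div₀] at h1
    exact (div_lt_one₀ hR).1 h1
  obtain ⟨e, he1, heq, heN⟩ : ∃ e, 1 ≤ e ∧ e ≤ q ^ 2 ∧ nrm v (Del y e 0) < v (a - b) := by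
    have hc : Fintype.card (r.k × r.k) < Fintype.card (Fin (q ^ 2 + 1)) := by
      rw [Fintype.card_prod, Fintype.card_fin]
      have := Nat.mul_le_mul hcardk hcardk
      nlinarith
    obtain ⟨i, j, hij, hf⟩ := Fintype.exists_ne_map_eq_of_card_lt
      (fun i : Fin (q ^ 2 + 1) => (r.red (z i), r.red (z (i + 1)))) hc
    simp only [Prod.mk.injEq] at hf
    have key : ∀ i j : ℕ, i < j → r.red (z i) = r.red (z j) → r.red (z (i + 1)) = r.red (z (j + 1)) →
        nrm v (Del y (j - i) 0) < v (a - b) := by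
      intro i j hij h1 h2
      have h3 := hN i (j - i) 0
      rw [Nat.sub_add_cancel hij.le, zero_add] at h3
      rw [← h3]
      exact max_lt (hz _ _ h1.symm) (hz _ _ h2.symm)
    rcases lt_or_gt_of_ne (fun h => hij (Fin.ext h) : (i : ℕ) ≠ j) with h | h
    · exact ⟨j - i, by omega, by omega, key i j h hf.1 hf.2⟩
    · exact ⟨i - j, by omega, by omega, key j i h hf.1.symm hf.2.symm⟩
  have heN' : ∀ t, nrm v (Del y (t + e) t) < v (a - b) := by
    intro t
    have := hN t e 0
    rw [zero_add, add_comm e t] at this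
    rw [this]; exact heN
  have hclass : ∀ s t, v (y (t + e * s) - y t) < v (a - b) := by
    intro s t
    induction s with
    | zero => simpa using hR
    | succ s ih =>
      have h1 : v (y (t + e * s + e) - y (t + e * s)) < v (a - b) :=
        lt_of_le_of_lt (le_max_left _ _) (heN' (t + e * s))
      have e1 : y (t + e * (s + 1)) - y t = (y (t + e * s + e) - y (t + e * s)) + (y (t + e * s) - y t) := by
        rw [show t + e * (s + 1) = t + e * s + e by ring]; ring
      rw [e1]; exact Valuation.map_add_lt _ h1 ih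
  have hclass' : ∀ i, v (y (i + 1) - y (i % e + 1)) < v (a - b) := by
    intro i
    have := hclass (i / e) (i % e + 1)
    rwa [show i % e + 1 + e * (i / e) = i + 1 by have := Nat.mod_add_div i e; omega] at this
  -- the linearised map
  let η : ℕ → K := fun i => T.h (y (i % e + 1)) (y (i % e + 1))
  have hηle : ∀ i, v (η i) ≤ 1 := fun i => hhle _ _
  have hη : ∀ i j, i % e = j % e → v (T.h (y (i + 1)) (y (j + 1)) - η i) < 1 := by
    intro i j hij
    have h1 := T.cont a b (y (i + 1)) (y (i % e + 1)) (y (j + 1)) hab (hnea _) (hnea _) (hnea _) (hclass' i)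
    have h2 := T.cont a b (y (j + 1)) (y (i % e + 1)) (y (i % e + 1)) hab (hnea _) (hnea _) (hnea _)
      (by rw [hij]; exact hclass' j)
    rw [T.symm (y (j + 1))] at h2
    have e1 : T.h (y (i + 1)) (y (j + 1)) - η i = (T.h (y (i + 1)) (y (j + 1)) - T.h (y (i % e + 1)) (y (j + 1))) +
        (T.h (y (i % e + 1)) (y (j + 1)) - T.h (y (i % e + 1)) (y (i % e + 1))) := by ring
    rw [e1]
    exact lt_of_lt_of_le (Valuation.map_add_lt _ h1 h2) hH
  let A : ℕ → Matrix (Fin 2) (Fin 2) v.valuationSubring := fun i =>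
    !![0, 1; -⟨δ, hδ⟩, ⟨η i, hηle i⟩]
  have hAper : ∀ i, A (i % e) = A i := by
    intro i
    have : η (i % e) = η i := by
      show T.h (y (i % e % e + 1)) (y (i % e % e + 1)) = T.h (y (i % e + 1)) (y (i % e + 1))
      rw [Nat.mod_mod]
    simp only [A, this]
  have hstep : ∀ i j, i % e = j % e → 0 < nrm v (Del y i j) →
      nrm v (Del y (i + 1) (j + 1) - act (A i) (Del y i j)) < nrm v (Del y i j) := by
    intro i j hij hpos
    have e0 : (Del y (i + 1) (j + 1) - act (A i) (Del y i j)) 0 = 0 := by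
      simp [Del, act, A]
    have e1 : (Del y (i + 1) (j + 1) - act (A i) (Del y i j)) 1 =
        (T.h (y (i + 1)) (y (j + 1)) - η i) * (y (i + 1) - y (j + 1)) := by
      have := hdiff i j
      simp only [Del, act, A, Pi.sub_apply, Matrix.cons_val_one, Matrix.cons_val_zero,
        Matrix.of_apply, Matrix.cons_val', Matrix.cons_val_fin_one]
      rw [show i + 1 + 1 = i + 2 by ring, show j + 1 + 1 = j + 2 by ring, this]
      push_cast
      ring
    unfold nrm at *
    rw [e0, e1, map_zero]
    apply max_lt hpos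
    rw [map_mul]
    calc v (T.h (y (i + 1)) (y (j + 1)) - η i) * v (y (i + 1) - y (j + 1))
        ≤ v (T.h (y (i + 1)) (y (j + 1)) - η i) * max (v (Del y i j 0)) (v (Del y i j 1)) :=
          mul_le_mul' le_rfl (le_max_right _ _)
      _ < 1 * max (v (Del y i j 0)) (v (Del y i j 1)) := mul_lt_mul_of_pos_right (hη i j hij) hpos
      _ = _ := one_mul _
  let P : ℕ → Matrix (Fin 2) (Fin 2) v.valuationSubring := fun s => Nat.rec 1 (fun t M => A t * M) s
  have hPs : ∀ s, P (s + 1) = A s * P s := fun s => rfl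
  have hrun : ∀ s i j, i % e = 0 → j % e = 0 → 0 < nrm v (Del y i j) →
      nrm v (Del y (i + s) (j + s) - act (P s) (Del y i j)) < nrm v (Del y i j) := by
    intro s i j hi hj hpos
    induction s with
    | zero =>
      have : P 0 = 1 := rfl
      rw [this, act_one, add_zero, add_zero, sub_self]
      unfold nrm at *
      simpa using hpos
    | succ s ih =>
      have hmods : ∀ i, i % e = 0 → (i + s) % e = s % e := by
        intro i hi
        rw [Nat.add_mod, hi, zero_add, Nat.mod_mod]
      have hAs : A (i + s) = A s := by rw [← hAper (i + s), hmods i hi, hAper]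
      have hpos' : 0 < nrm v (Del y (i + s) (j + s)) := by rw [hN]; exact hpos
      have h1 := hstep (i + s) (j + s) (by rw [hmods i hi, hmods j hj]) hpos'
      rw [hN, hAs] at h1
      have h2 : nrm v (act (A s) (Del y (i + s) (j + s) - act (P s) (Del y i j))) < nrm v (Del y i j) :=
        lt_of_le_of_lt (act_le _ _) ih
      have e1 : Del y (i + (s + 1)) (j + (s + 1)) - act (P (s + 1)) (Del y i j) =
          (Del y (i + s + 1) (j + s + 1) - act (A s) (Del y (i + s) (j + s))) +
          act (A s) (Del y (i + s) (j + s) - act (P s) (Del y i j)) := by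
        rw [act_sub, hPs, act_mul]
        show Del y (i + s + 1) (j + s + 1) - _ = _
        abel
      rw [e1]
      exact nrm_add_lt h1 h2
  -- pigeonhole on matrices
  obtain ⟨r1, r2, hr12, hr2q, hPmod⟩ : ∃ r1 r2 : ℕ, r1 < r2 ∧ r2 ≤ q ^ 4 ∧
      r.red.mapMatrix (P (r1 * e)) = r.red.mapMatrix (P (r2 * e)) := by
    have hc : Fintype.card (Fin 2 → Fin 2 → r.k) < Fintype.card (Fin (q ^ 4 + 1)) := by
      rw [Fintype.card_fun, Fintype.card_fun, Fintype.card_fin, Fintype.card_fin, ← pow_mul]
      have := Nat.pow_le_pow_left hcardk 4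
      exact Nat.lt_succ_of_le this
    obtain ⟨i, j, hij, hf⟩ := Fintype.exists_ne_map_eq_of_card_lt
      (fun i : Fin (q ^ 4 + 1) => (r.red.mapMatrix (P (i * e)) : Fin 2 → Fin 2 → r.k)) hc
    rcases lt_or_gt_of_ne (fun h => hij (Fin.ext h) : (i : ℕ) ≠ j) with h | h
    · exact ⟨i, j, h, by omega, hf⟩
    · exact ⟨j, i, h, by omega, hf.symm⟩
  set T' := (r2 - r1) * e with hT'
  have hT1 : 1 ≤ T' := Nat.mul_pos (by omega) he1
  have hTq : T' ≤ q ^ 6 := by
    calc T' ≤ q ^ 4 * q ^ 2 := Nat.mul_le_mul (by omega) heq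
      _ = q ^ 6 := by ring
  have hshift : ∀ i j, i % e = 0 → j % e = 0 → 0 < nrm v (Del y i j) →
      nrm v (Del y (i + T') (j + T') - Del y i j) < nrm v (Del y i j) := by
    intro i j hi hj hpos
    set u := r1 * e * (n - 1) with hu
    have hun : u + r1 * e = r1 * e * n := by
      rw [hu]
      obtain ⟨n', rfl⟩ : ∃ n', n = n' + 1 := ⟨n - 1, by omega⟩
      rw [Nat.add_sub_cancel]; ring
    have hmu : ∀ i, i % e = 0 → (i + u) % e = 0 := by
      intro i hi
      apply Nat.mod_eq_zero_of_dvd
      exact dvd_add (Nat.dvd_of_mod_eq_zero hi) (by rw [hu]; exact Dvd.intro (r1 * (n - 1)) (by ring))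
    have hposu : 0 < nrm v (Del y (i + u) (j + u)) := by rw [hN]; exact hpos
    have h1 := hrun (r1 * e) (i + u) (j + u) (hmu i hi) (hmu j hj) hposu
    have h2 := hrun (r2 * e) (i + u) (j + u) (hmu i hi) (hmu j hj) hposu
    have ed1 : Del y (i + u + r1 * e) (j + u + r1 * e) = Del y i j := by
      apply hDper
      · rw [add_assoc, hun]; exact hmodn _ _
      · rw [add_assoc, hun]; exact hmodn _ _
    have hr2e : r2 * e = r1 * e + T' := by
      rw [hT', ← Nat.add_mul]; congr 1; omega
    have ed2 : Del y (i + u + r2 * e) (j + u + r2 * e) = Del y (i + T') (j + T') := by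
      apply hDper
      · rw [hr2e, show i + u + (r1 * e + T') = (i + T') + (u + r1 * e) by ring, hun]; exact hmodn _ _
      · rw [hr2e, show j + u + (r1 * e + T') = (j + T') + (u + r1 * e) by ring, hun]; exact hmodn _ _
    rw [ed1] at h1
    rw [ed2] at h2
    have h3 : nrm v (act (P (r2 * e) - P (r1 * e)) (Del y (i + u) (j + u))) < nrm v (Del y (i + u) (j + u)) := by
      apply act_lt _ _ hposu
      intro a' b'
      rw [← r.ker]
      have := congrFun (congrFun hPmod a') b'
      simp only [RingHom.mapMatrix_apply, Matrix.map_apply] at this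
      rw [Matrix.sub_apply, map_sub, this, sub_self]
    have e1 : Del y (i + T') (j + T') - Del y i j =
        (Del y (i + T') (j + T') - act (P (r2 * e)) (Del y (i + u) (j + u))) +
        act (P (r2 * e) - P (r1 * e)) (Del y (i + u) (j + u)) -
        (Del y i j - act (P (r1 * e)) (Del y (i + u) (j + u))) := by
      rw [act_sub']; abel
    rw [e1]
    rw [hN] at h1 h2 h3
    exact nrm_sub_lt (nrm_add_lt h2 h3) h1
  -- telescoping
  have hTe : ∀ c, (c * T') % e = 0 := by
    intro c
    apply Nat.mod_eq_zero_of_dvd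
    rw [hT']; exact Dvd.intro (c * (r2 - r1)) (by ring)
  have hU : ∀ c x z', 0 < nrm v (Del y (x * T') (z' * T')) →
      nrm v (Del y ((x + c) * T') ((z' + c) * T') - Del y (x * T') (z' * T')) <
        nrm v (Del y (x * T') (z' * T')) := by
    intro c x z' hpos
    have hNc : ∀ c, nrm v (Del y ((x + c) * T') ((z' + c) * T')) = nrm v (Del y (x * T') (z' * T')) := by
      intro c
      rw [show (x + c) * T' = x * T' + c * T' by ring, show (z' + c) * T' = z' * T' + c * T' by ring, hN]
    induction c with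
    | zero =>
      rw [add_zero, add_zero, sub_self]
      unfold nrm at *
      simpa using hpos
    | succ c ih =>
      have h1 := hshift ((x + c) * T') ((z' + c) * T') (hTe _) (hTe _) (by rw [hNc]; exact hpos)
      rw [hNc] at h1
      have e1 : Del y ((x + (c + 1)) * T') ((z' + (c + 1)) * T') - Del y (x * T') (z' * T') =
          (Del y ((x + c) * T' + T') ((z' + c) * T' + T') - Del y ((x + c) * T') ((z' + c) * T')) +
          (Del y ((x + c) * T') ((z' + c) * T') - Del y (x * T') (z' * T')) := by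
        rw [show (x + (c + 1)) * T' = (x + c) * T' + T' by ring, show (z' + (c + 1)) * T' = (z' + c) * T' + T' by ring]
        abel
      rw [e1]
      exact nrm_add_lt h1 ih
  have hex : ∃ m, 0 < m ∧ Del y (m * T') 0 = 0 := by
    refine ⟨n, hn, ?_⟩
    have : Del y (n * T') 0 = Del y 0 0 := by
      apply hDper _ rfl
      show (n * T') % n = 0 % n
      simp
    rw [this]
    unfold Del
    ext i; fin_cases i <;> simp
  obtain ⟨hm0, hm1⟩ := Nat.find_spec hex
  set m := Nat.find hex with hm
  have hmin : ∀ m', 0 < m' → m' < m → Del y (m' * T') 0 ≠ 0 := fun m' h1 h2 h3 =>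
    Nat.find_min hex h2 ⟨h1, h3⟩
  have hprime : ∀ ℓ, ℓ.Prime → ℓ ∣ m → ℓ = p := by
    intro ℓ hℓ hdvd
    by_contra hne
    obtain ⟨ρ, hρ⟩ := hdvd
    have hρ0 : 0 < ρ := Nat.pos_of_ne_zero (by rintro rfl; omega)
    have hρm : ρ < m := by
      have := hℓ.two_le
      rw [hρ]; nlinarith
    have hD0 := hmin ρ hρ0 hρm
    have hpos : 0 < nrm v (Del y (ρ * T') (0 * T')) := by
      rw [zero_mul]
      exact zero_lt_iff.2 fun h => hD0 (nrm_eq_zero h)
    have htel : ∀ s, nrm v (Del y ((ρ * s) * T') 0 - (s : K) • Del y (ρ * T') (0 * T')) <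
        nrm v (Del y (ρ * T') (0 * T')) := by
      intro s
      induction s with
      | zero =>
        have : Del y ((ρ * 0) * T') 0 - ((0 : ℕ) : K) • Del y (ρ * T') (0 * T') = 0 := by
          rw [mul_zero, zero_mul]
          unfold Del
          ext i; fin_cases i <;> simp
        rw [this]
        unfold nrm at *
        simpa using hpos
      | succ s ih =>
        have h1 := hU (ρ * s) ρ 0 hpos
        have e1 : Del y ((ρ * (s + 1)) * T') 0 - ((s + 1 : ℕ) : K) • Del y (ρ * T') (0 * T') =
            (Del y ((ρ + ρ * s) * T') ((0 + ρ * s) * T') - Del y (ρ * T') (0 * T')) +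
            (Del y ((ρ * s) * T') 0 - (s : K) • Del y (ρ * T') (0 * T')) := by
          have e2 : Del y ((ρ * (s + 1)) * T') 0 = Del y ((ρ + ρ * s) * T') ((0 + ρ * s) * T') +
              Del y ((ρ * s) * T') 0 := by
            rw [show ρ * (s + 1) = ρ + ρ * s by ring, zero_add]
            unfold Del
            ext i; fin_cases i <;> simp
          rw [e2]
          push_cast
          rw [add_smul, one_smul]
          abel
        rw [e1]
        exact nrm_add_lt h1 ih
    have h2 := htel ℓ
    rw [mul_comm ρ ℓ, ← hρ, hm1, zero_sub] at h2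
    have hvl : v ((ℓ : ℕ) : K) = 1 := hv.v_coprime ((Nat.coprime_primes hℓ hp).2 hne)
    have h3 : nrm v (-((ℓ : K) • Del y (ρ * T') (0 * T'))) = nrm v (Del y (ρ * T') (0 * T')) := by
      unfold nrm
      simp only [Pi.neg_apply, Pi.smul_apply, smul_eq_mul, Valuation.map_neg, map_mul, hvl, one_mul]
    rw [h3] at h2
    exact lt_irrefl _ h2
  have hmp : m = p ^ m.primeFactorsList.length :=
    Nat.eq_prime_pow_of_unique_prime_dvd hm0.ne' (fun {d} hd hdm => hprime d hd hdm)
  refine ⟨T', m.primeFactorsList.length, hT1, hTq, ?_⟩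
  rw [← hmp]
  have h0 : y (m * T') = y 0 ∧ y (m * T' + 1) = y 1 := by
    constructor
    · have := congrFun hm1 0
      exact sub_eq_zero.1 this
    · have := congrFun hm1 1
      have h2 : y (m * T' + 1) - y (0 + 1) = 0 := this
      rw [zero_add] at h2
      exact sub_eq_zero.1 h2
  have hall : ∀ t, y (t + T' * m) = y t ∧ y (t + 1 + T' * m) = y (t + 1) := by
    intro t
    induction t with
    | zero =>
      rw [zero_add, zero_add, mul_comm T' m, add_comm 1]
      exact h0
    | succ t ih =>
      refine ⟨ih.2, ?_⟩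
      rw [show t + 1 + 1 + T' * m = t + T' * m + 2 by ring, hrec, show t + T' * m + 1 = t + 1 + T' * m by ring,
        ih.1, ih.2, ← hrec]
  exact fun t => (hall t).1

end Pool.Agent.H504D
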