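import Pool.Agent.H504D.Dick

set_option autoImplicit false

open Finset Pool.Agent.H504R2
open scoped WithZero

namespace Pool.Agent.H504D

variable {K : Type} [Field K] {v : Valuation K ℤᵐ⁰} {p q : ℕ}

lemma kh_comm (A X Y : K) (m : ℕ) : kh A X Y m = kh A Y X m := by
  by_cases h : X = Y
  · rw [h]
  · have h1 := dk_sub A X Y m
    have h2 := dk_sub A Y X m
    have h3 : (X - Y) * kh A X Y m = (X - Y) * kh A Y X m := by
      linear_combination -h1 - h2
    exact mul_left_cancel₀ (sub_ne_zero.2 h) h3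

section small

variable {M : ℤᵐ⁰}

lemma sq_add_lt {a b : K} {c : ℤᵐ⁰} (ha : v a ^ 2 < c) (hb : v b ^ 2 < c) : v (a + b) ^ 2 < c := by
  rcases le_total (v a) (v b) with h | h
  · exact lt_of_le_of_lt (pow_le_pow_left₀ zero_le ((Valuation.map_add v a b).trans (max_le h le_rfl)) 2) hb
  · exact lt_of_le_of_lt (pow_le_pow_left₀ zero_le ((Valuation.map_add v a b).trans (max_le le_rfl h)) 2) ha

lemma sq_sub_lt {a b : K} {c : ℤᵐ⁰} (ha : v a ^ 2 < c) (hb : v b ^ 2 < c) : v (a - b) ^ 2 < c := by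
  rw [sub_eq_add_neg]
  exact sq_add_lt ha (by rwa [Valuation.map_neg])

lemma sq_add_le {a b : K} {c : ℤᵐ⁰} (ha : v a ^ 2 ≤ c) (hb : v b ^ 2 ≤ c) : v (a + b) ^ 2 ≤ c := by
  rcases le_total (v a) (v b) with h | h
  · exact (pow_le_pow_left₀ zero_le ((Valuation.map_add v a b).trans (max_le h le_rfl)) 2).trans hb
  · exact (pow_le_pow_left₀ zero_le ((Valuation.map_add v a b).trans (max_le le_rfl h)) 2).trans ha

lemma sq_sub_le {a b : K} {c : ℤᵐ⁰} (ha : v a ^ 2 ≤ c) (hb : v b ^ 2 ≤ c) : v (a - b) ^ 2 ≤ c := by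
  rw [sub_eq_add_neg]
  exact sq_add_le ha (by rwa [Valuation.map_neg])

lemma sq_mul_lt {a b : K} {c d : ℤᵐ⁰} (hc : 0 < c) (ha : v a ^ 2 ≤ c) (hb : v b ^ 2 < d) :
    v (a * b) ^ 2 < c * d := by
  rw [map_mul, mul_pow]
  calc v a ^ 2 * v b ^ 2 ≤ c * v b ^ 2 := mul_le_mul' ha le_rfl
    _ < c * d := mul_lt_mul_of_pos_left hb hc

lemma sq_mul_lt' {a b : K} {c d : ℤᵐ⁰} (hd : 0 < d) (ha : v a ^ 2 < c) (hb : v b ^ 2 ≤ d) :
    v (a * b) ^ 2 < c * d := by
  rw [mul_comm a b, mul_comm c d]; exact sq_mul_lt hd hb ha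

lemma sq_mul_le {a b : K} {c d : ℤᵐ⁰} (ha : v a ^ 2 ≤ c) (hb : v b ^ 2 ≤ d) :
    v (a * b) ^ 2 ≤ c * d := by
  rw [map_mul, mul_pow]; exact mul_le_mul' ha hb

variable (hv : IsPlace v p q)

include hv

lemma v_two_le : v (2 : K) ^ 2 ≤ 1 := by
  have := hv.nat_le 2
  push_cast at this
  exact pow_le_one₀ zero_le this

lemma dk_le {A X : K} (hX : v X ^ 2 ≤ M) (hA : v A ≤ M) (m : ℕ) : v (dk A X m) ^ 2 ≤ M ^ m := by
  have hA2 : v A ^ 2 ≤ M ^ 2 := pow_le_pow_left₀ zero_le hA 2
  induction m using Nat.twoStepInduction with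
  | zero => simpa [dk] using v_two_le hv
  | one => simpa [dk] using hX
  | more m h1 h2 =>
    apply sq_sub_le
    · have := sq_mul_le hX h2
      rwa [← pow_succ'] at this
    · have := sq_mul_le hA2 h1
      rwa [← pow_add, add_comm 2 m] at this

lemma kh_le {A X Y : K} (hX : v X ^ 2 ≤ M) (hY : v Y ^ 2 ≤ M) (hA : v A ≤ M) (m : ℕ) :
    v (kh A X Y (m + 1)) ^ 2 ≤ M ^ m := by
  have hA2 : v A ^ 2 ≤ M ^ 2 := pow_le_pow_left₀ zero_le hA 2
  induction m using Nat.twoStepInduction with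
  | zero => simp [kh]
  | one =>
    have : kh A X Y (1 + 1) = X + Y := by simp [kh, dk]
    rw [this, pow_one]
    exact sq_add_le hX hY
  | more m h1 h2 =>
    have e : kh A X Y (m + 2 + 1) = dk A X (m + 2) + Y * kh A X Y (m + 1 + 1) - A * kh A X Y (m + 1) := rfl
    rw [e]
    apply sq_sub_le
    · apply sq_add_le
      · exact dk_le hv hX hA (m + 2)
      · have := sq_mul_le hY h2
        rwa [← pow_succ'] at this
    · have := sq_mul_le hA2 h1
      rwa [← pow_add, add_comm 2 m] at this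

lemma dk_sub_lt {A X Y : K} (hX : v X ^ 2 ≤ M) (hY : v Y ^ 2 ≤ M) (hA : v A ≤ M)
    (hM : 0 < M) (hXY : v (X - Y) ^ 2 < M) (m : ℕ) : v (dk A X (m + 1) - dk A Y (m + 1)) ^ 2 < M ^ (m + 1) := by
  rw [dk_sub, pow_succ' M]
  exact sq_mul_lt' (pow_pos hM m) hXY (kh_le hv hX hY hA m)

lemma kh_sub_lt {A X X' Y : K} (hX : v X ^ 2 ≤ M) (hX' : v X' ^ 2 ≤ M) (hY : v Y ^ 2 ≤ M)
    (hA : v A ≤ M) (hM : 0 < M) (hXX : v (X - X') ^ 2 < M) (m : ℕ) :
    v (kh A X Y (m + 1) - kh A X' Y (m + 1)) ^ 2 < M ^ m := by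
  have hA2 : v A ^ 2 ≤ M ^ 2 := pow_le_pow_left₀ zero_le hA 2
  induction m using Nat.twoStepInduction with
  | zero => simp [kh]
  | one =>
    have : kh A X Y (1 + 1) - kh A X' Y (1 + 1) = X - X' := by simp [kh, dk]
    rw [this, pow_one]
    exact hXX
  | more m h1 h2 =>
    have e : kh A X Y (m + 2 + 1) - kh A X' Y (m + 2 + 1) = (dk A X (m + 2) - dk A X' (m + 2)) +
        Y * (kh A X Y (m + 1 + 1) - kh A X' Y (m + 1 + 1)) - A * (kh A X Y (m + 1) - kh A X' Y (m + 1)) := by
      have e1 : kh A X Y (m + 2 + 1) = dk A X (m + 2) + Y * kh A X Y (m + 1 + 1) - A * kh A X Y (m + 1) := rfl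
      have e2 : kh A X' Y (m + 2 + 1) = dk A X' (m + 2) + Y * kh A X' Y (m + 1 + 1) - A * kh A X' Y (m + 1) := rfl
      rw [e1, e2]; ring
    rw [e]
    apply sq_sub_lt
    · apply sq_add_lt
      · exact dk_sub_lt hv hX hX' hA hM hXX (m + 1)
      · have := sq_mul_lt hM hY h2
        rwa [← pow_succ'] at this
    · have := sq_mul_lt (pow_pos hM 2) hA2 h1
      rwa [← pow_add, add_comm 2 m] at this

/-- the case where the parameter dominates -/
lemma kh_beta {A X Y : K} (hX : v X ^ 2 < v A) (hY : v Y ^ 2 < v A) (l : ℕ) :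
    v (kh A X Y (2 * l + 1) - (2 * l + 1 : ℕ) * (-A) ^ l) ^ 2 < v A ^ (2 * l) := by
  have hM : 0 < v A := lt_of_le_of_lt zero_le hX
  set M := v A with hMdef
  have hA2 : v A ^ 2 ≤ M ^ 2 := le_rfl
  have hdk : ∀ l : ℕ, v (dk A X (2 * l) - 2 * (-A) ^ l) ^ 2 < M ^ (2 * l) ∧
      v (dk A X (2 * l + 1)) ^ 2 < M ^ (2 * l + 1) := by
    intro l
    induction l with
    | zero => simpa [dk] using hX
    | succ l ih =>
      obtain ⟨h1, h2⟩ := ih
      have e1 : dk A X (2 * (l + 1)) = X * dk A X (2 * l + 1) - A * dk A X (2 * l) := rfl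
      have e2 : dk A X (2 * (l + 1) + 1) = X * dk A X (2 * (l + 1)) - A * dk A X (2 * l + 1) := rfl
      have h3 : v (dk A X (2 * (l + 1)) - 2 * (-A) ^ (l + 1)) ^ 2 < M ^ (2 * (l + 1)) := by
        have e3 : dk A X (2 * (l + 1)) - 2 * (-A) ^ (l + 1) =
            X * dk A X (2 * l + 1) - A * (dk A X (2 * l) - 2 * (-A) ^ l) := by rw [e1]; ring
        rw [e3]
        apply sq_sub_lt
        · have := sq_mul_lt hM hX.le h2
          rwa [← pow_succ', show 2 * l + 1 + 1 = 2 * (l + 1) by ring] at this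
        · have := sq_mul_lt (pow_pos hM 2) hA2 h1
          rwa [← pow_add, show 2 + 2 * l = 2 * (l + 1) by ring] at this
      refine ⟨h3, ?_⟩
      rw [e2]
      apply sq_sub_lt
      · have := sq_mul_lt' (pow_pos hM _) hX (dk_le hv hX.le le_rfl (2 * (l + 1)))
        rwa [← pow_succ'] at this
      · have := sq_mul_lt (pow_pos hM 2) hA2 h2
        rwa [← pow_add, show 2 + (2 * l + 1) = 2 * (l + 1) + 1 by ring] at this
  have hkh : ∀ l : ℕ, v (kh A X Y (2 * l + 1) - (2 * l + 1 : ℕ) * (-A) ^ l) ^ 2 < M ^ (2 * l) ∧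
      v (kh A X Y (2 * l + 2)) ^ 2 < M ^ (2 * l + 1) := by
    intro l
    induction l with
    | zero =>
      refine ⟨by simp [kh], ?_⟩
      have : kh A X Y (2 * 0 + 2) = X + Y := by simp [kh, dk]
      rw [this, mul_zero, zero_add, pow_one]
      exact sq_add_lt hX hY
    | succ l ih =>
      obtain ⟨h1, h2⟩ := ih
      have e1 : kh A X Y (2 * (l + 1) + 1) = dk A X (2 * (l + 1)) + Y * kh A X Y (2 * l + 2) -
          A * kh A X Y (2 * l + 1) := rfl
      have e2 : kh A X Y (2 * (l + 1) + 2) = dk A X (2 * (l + 1) + 1) + Y * kh A X Y (2 * (l + 1) + 1) -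
          A * kh A X Y (2 * l + 2) := rfl
      refine ⟨?_, ?_⟩
      · have e3 : kh A X Y (2 * (l + 1) + 1) - (2 * (l + 1) + 1 : ℕ) * (-A) ^ (l + 1) =
            (dk A X (2 * (l + 1)) - 2 * (-A) ^ (l + 1)) + Y * kh A X Y (2 * l + 2) -
            A * (kh A X Y (2 * l + 1) - (2 * l + 1 : ℕ) * (-A) ^ l) := by
          rw [e1]; push_cast; ring
        rw [e3]
        apply sq_sub_lt
        · apply sq_add_lt
          · exact (hdk (l + 1)).1
          · have := sq_mul_lt hM hY.le h2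
            rwa [← pow_succ', show 2 * l + 1 + 1 = 2 * (l + 1) by ring] at this
        · have := sq_mul_lt (pow_pos hM 2) hA2 h1
          rwa [← pow_add, show 2 + 2 * l = 2 * (l + 1) by ring] at this
      · rw [e2]
        apply sq_sub_lt
        · apply sq_add_lt
          · exact (hdk (l + 1)).2
          · have := sq_mul_lt' (pow_pos hM _) hY (kh_le hv hX.le hY.le le_rfl (2 * (l + 1)))
            rwa [← pow_succ'] at this
        · have := sq_mul_lt (pow_pos hM 2) hA2 h2
          rwa [← pow_add, show 2 + (2 * l + 1) = 2 * (l + 1) + 1 by ring] at this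
  exact (hkh l).1

end small

/-- admissible exponents -/
structure Adm (p q m : ℕ) (A : K) : Prop where
  pos : 1 ≤ m
  cp : Nat.Coprime m p
  cq : Nat.Coprime m (q - 1)
  cA : A = 0 ∨ Nat.Coprime m (q ^ 2 - 1)

/-- the weight -/
def W3 (v : Valuation K ℤᵐ⁰) (A X Y : K) : ℤᵐ⁰ := max (max (v X ^ 2) (v Y ^ 2)) (v A)

lemma W3_comm (A X Y : K) : W3 v A Y X = W3 v A X Y := by unfold W3; rw [max_comm (v Y ^ 2)]

/-- The key valuation formula for the difference quotients of Dickson polynomials. -/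
theorem v_kh (hv : IsPlace v p q) (hp : p.Prime) (hq : ∃ f, q = p ^ f) {m : ℕ} {A : K}
    (hm : Adm p q m A) (X Y : K) : v (kh A X Y m) ^ 2 = (W3 v A X Y) ^ (m - 1) := by
  obtain ⟨m', rfl⟩ : ∃ m', m = m' + 1 := ⟨m - 1, by have := hm.pos; omega⟩
  rw [Nat.add_sub_cancel]
  -- the case where `X` dominates
  have key : ∀ X Y : K, X ≠ 0 → v Y ≤ v X → v A ≤ v X ^ 2 →
      v (kh A X Y (m' + 1)) ^ 2 = (W3 v A X Y) ^ m' := by
    intro X Y hX0 hYX hAX
    have hvX : 0 < v X := zero_lt_iff.2 ((Valuation.ne_zero_iff v).2 hX0)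
    have hW : W3 v A X Y = v X ^ 2 := by
      unfold W3
      rw [max_eq_left (pow_le_pow_left₀ zero_le hYX 2), max_eq_left hAX]
    have e1 : kh A X Y (m' + 1) = X ^ m' * kh (A / X ^ 2) 1 (Y / X) (m' + 1) := by
      rw [← kh_smul]
      congr 1 <;> field_simp
    have hy : v (Y / X) ≤ 1 := by rw [map_div₀]; exact (div_le_one₀ hvX).2 hYX
    have ha : v (A / X ^ 2) ≤ 1 := by
      rw [map_div₀, map_pow]; exact (div_le_one₀ (pow_pos hvX 2)).2 hAX
    obtain ⟨r⟩ := exists_res hv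
    letI := r.fld
    let a' : v.valuationSubring := ⟨A / X ^ 2, ha⟩
    let y' : v.valuationSubring := ⟨Y / X, hy⟩
    have h1 : kh (r.red a') (r.red 1) (r.red y') (m' + 1) ≠ 0 := by
      apply kh_ne_zero_field hp r.charp r.pow_q hq (by omega) hm.cp hm.cq
      · rcases hm.cA with h | h
        · left
          have : a' = 0 := by apply Subtype.ext; show A / X ^ 2 = 0; rw [h, zero_div]
          rw [this, map_zero]
        · exact Or.inr h
      · rintro ⟨-, h2, -⟩
        rw [map_one] at h2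
        exact one_ne_zero h2
    rw [← map_kh, Ne, r.ker] at h1
    have h2 : ((kh a' 1 y' (m' + 1) : v.valuationSubring) : K) = kh (A / X ^ 2) 1 (Y / X) (m' + 1) := by
      have := map_kh (v.valuationSubring.subtype : v.valuationSubring →+* K) a' 1 y' (m' + 1)
      simpa using this
    have h3 : v (kh (A / X ^ 2) 1 (Y / X) (m' + 1)) = 1 := by
      rw [← h2]
      apply le_antisymm (kh a' 1 y' (m' + 1)).2 (not_lt.1 h1)
    rw [e1, map_mul, h3, mul_one, hW, map_pow, ← pow_mul, ← pow_mul, mul_comm m' 2]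
  by_cases h0 : X = 0 ∧ Y = 0 ∧ A = 0
  · obtain ⟨rfl, rfl, rfl⟩ := h0
    rw [kh_zero', gr_succ]
    unfold W3
    simp only [zero_mul, add_zero, map_pow, map_zero, ne_eq, OfNat.ofNat_ne_zero, not_false_eq_true,
      zero_pow, max_self]
    rcases Nat.eq_zero_or_pos m' with h | h
    · rw [h]; simp
    · rw [zero_pow h.ne', zero_pow two_ne_zero]
  · by_cases hbeta : v X ^ 2 < v A ∧ v Y ^ 2 < v A
    · obtain ⟨hX, hY⟩ := hbeta
      have hM : 0 < v A := lt_of_le_of_lt zero_le hX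
      have hA0 : A ≠ 0 := by rintro rfl; simp at hM
      have hc := hm.cA.resolve_left hA0
      -- `m` is odd
      have hodd : Even m' := by
        by_contra hcon
        rw [Nat.not_even_iff_odd] at hcon
        have h2 : 2 ∣ m' + 1 := by
          obtain ⟨c, hc⟩ := hcon
          exact ⟨c + 1, by omega⟩
        rcases hp.eq_two_or_odd' with rfl | hpo
        · have := Nat.Coprime.eq_one_of_dvd (Nat.Coprime.symm hm.cp) h2
          omega
        · obtain ⟨f, hf⟩ := hq
          have hqo : Odd q := by rw [hf]; exact hpo.pow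
          have h3 : 2 ∣ q ^ 2 - 1 := by
            obtain ⟨c, hc⟩ := hqo.pow (n := 2)
            exact ⟨c, by omega⟩
          have := Nat.dvd_gcd h2 h3
          rw [Nat.coprime_iff_gcd_eq_one.1 hc] at this
          omega
      obtain ⟨l, hl⟩ := hodd
      have hl' : m' = 2 * l := by omega
      subst hl'
      have h1 := kh_beta hv hX hY l
      have h2 : v (((2 * l + 1 : ℕ) : K) * (-A) ^ l) = v A ^ l := by
        rw [map_mul, hv.v_coprime hm.cp, one_mul, map_pow, Valuation.map_neg]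
      have h3 : v (kh A X Y (2 * l + 1)) = v A ^ l := by
        have h4 : kh A X Y (2 * l + 1) = (kh A X Y (2 * l + 1) - (2 * l + 1 : ℕ) * (-A) ^ l) +
            ((2 * l + 1 : ℕ) : K) * (-A) ^ l := by ring
        rw [h4, Valuation.map_add_eq_of_lt_right _ (by
          rw [h2]
          rw [show v A ^ (2 * l) = (v A ^ l) ^ 2 by rw [← pow_mul]; congr 1; ring] at h1
          exact lt_of_pow_lt_pow_left₀ 2 zero_le h1), h2]
      have hW : W3 v A X Y = v A := by
        unfold W3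
        exact max_eq_right (max_le hX.le hY.le)
      rw [h3, hW, ← pow_mul]
      congr 1; ring
    · -- `X` or `Y` dominates
      rcases le_total (v Y) (v X) with hXY | hXY
      · have h2 : v A ≤ v X ^ 2 := by
          by_contra hcon
          rw [not_le] at hcon
          exact hbeta ⟨hcon, lt_of_le_of_lt (pow_le_pow_left₀ zero_le hXY 2) hcon⟩
        have hX0 : X ≠ 0 := by
          rintro rfl
          apply h0
          rw [map_zero, le_zero_iff, Valuation.zero_iff] at hXY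
          rw [map_zero, zero_pow two_ne_zero, le_zero_iff, Valuation.zero_iff] at h2
          exact ⟨rfl, hXY, h2⟩
        exact key X Y hX0 hXY h2
      · have h2 : v A ≤ v Y ^ 2 := by
          by_contra hcon
          rw [not_le] at hcon
          exact hbeta ⟨lt_of_le_of_lt (pow_le_pow_left₀ zero_le hXY 2) hcon, hcon⟩
        have hY0 : Y ≠ 0 := by
          rintro rfl
          apply h0
          rw [map_zero, le_zero_iff, Valuation.zero_iff] at hXY
          rw [map_zero, zero_pow two_ne_zero, le_zero_iff, Valuation.zero_iff] at h2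
          exact ⟨hXY, rfl, h2⟩
        rw [kh_comm, ← W3_comm]
        exact key Y X hY0 hXY h2

end Pool.Agent.H504D
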