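import Pool.Agent.H504R2.Near

set_option autoImplicit false

open Finset Pool.Agent.H504R2
open scoped WithZero

namespace Pool.Agent.H504D

variable {K : Type} [Field K] {v : Valuation K ℤᵐ⁰} {p q : ℕ}

/-- The residue field of a place. -/
structure Res (v : Valuation K ℤᵐ⁰) (p q : ℕ) where
  k : Type
  [fld : Field k]
  red : v.valuationSubring →+* k
  surj : Function.Surjective red
  ker : ∀ x, red x = 0 ↔ v (x : K) < 1
  fin : Finite k
  card : Nat.card k ≤ q
  charp : (p : k) = 0
  pow_q : ∀ s : k, s ^ q = s

lemma two_le_q (hv : IsPlace v p q) : 2 ≤ q := by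
  classical
  have := hv.card_le {0, 1} (by
    intro x hx y hy hxy
    simp only [mem_insert, mem_singleton] at hx hy
    rcases hx with rfl | rfl <;> rcases hy with rfl | rfl
    · exact absurd rfl hxy
    · simp
    · simp
    · exact absurd rfl hxy)
  rwa [card_insert_of_notMem (by simp), card_singleton] at this

theorem exists_res (hv : IsPlace v p q) : Nonempty (Res v p q) := by
  classical
  let A := v.valuationSubring
  let k := IsLocalRing.ResidueField A
  let red : A →+* k := IsLocalRing.residue A
  have hker : ∀ x : A, red x = 0 ↔ v (x : K) < 1 := by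
    intro x
    rw [IsLocalRing.residue_eq_zero_iff, ValuationSubring.valuation_lt_one_iff]
    exact (Valuation.isEquiv_iff_val_lt_one.1 (Valuation.isEquiv_valuation_valuationSubring v)).symm
  have hsurj : Function.Surjective red := IsLocalRing.residue_surjective
  -- every finite set of residues has at most `q` elements
  have hcard : ∀ T : Finset k, T.card ≤ q := by
    intro T
    let g : k → K := fun s => ((hsurj s).choose : K)
    have hg : ∀ s t, s ≠ t → v (g s - g t) = 1 := by
      intro s t hst
      have h1 := (hsurj s).choose_spec
      have h2 := (hsurj t).choose_spec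
      have h3 : red ((hsurj s).choose - (hsurj t).choose) ≠ 0 := by
        rw [map_sub, h1, h2]; exact sub_ne_zero.2 hst
      rw [Ne, hker] at h3
      apply le_antisymm _ (not_lt.1 h3)
      exact ((hsurj s).choose - (hsurj t).choose).2
    have hinj : Set.InjOn g T := by
      intro s _ t _ hst
      by_contra hne
      have := hg s t hne
      rw [hst, sub_self, map_zero] at this
      exact zero_ne_one this
    rw [← card_image_of_injOn hinj]
    apply hv.card_le
    intro x hx y hy hxy
    rw [mem_image] at hx hy
    obtain ⟨s, _, rfl⟩ := hx
    obtain ⟨t, _, rfl⟩ := hy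
    exact hg s t (by rintro rfl; exact hxy rfl)
  have hfin : Finite k := by
    by_contra hinf
    rw [not_finite_iff_infinite] at hinf
    obtain ⟨T, hT⟩ := Infinite.exists_subset_card_eq k (q + 1)
    have := hcard T
    omega
  have hch : (p : k) = 0 := by
    have h1 : (⟨(p : K), hv.nat_le p⟩ : A) = ((p : ℕ) : A) := by
      apply Subtype.ext; simp
    have h2 : red ((p : ℕ) : A) = 0 := by
      rw [← h1, hker]; exact hv.p_lt
    rwa [map_natCast] at h2
  have hq := two_le_q hv
  have hpow : ∀ s : k, s ^ q = s := by
    intro s
    by_cases hs : s = 0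
    · rw [hs, zero_pow (by omega)]
    · obtain ⟨x, hx⟩ := hsurj s
      have h1 : v (x : K) = 1 := by
        apply le_antisymm x.2
        by_contra hcon
        rw [not_le, ← hker] at hcon
        exact hs (by rw [← hx, hcon])
      have h2 := hv.unit_pow _ h1
      have h3 : red (x ^ (q - 1) - 1) = 0 := by
        rw [hker]; simpa using h2
      rw [map_sub, map_pow, map_one, hx, sub_eq_zero] at h3
      calc s ^ q = s ^ (q - 1 + 1) := by congr 1; omega
        _ = s := by rw [pow_succ, h3, one_mul]
  refine ⟨{ k := k, fld := inferInstance, red := red, surj := hsurj, ker := hker, fin := hfin,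
            card := ?_, charp := hch, pow_q := hpow }⟩
  letI := Fintype.ofFinite k
  rw [Nat.card_eq_fintype_card]
  exact hcard univ

end Pool.Agent.H504D
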