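import Pool.Agent.H504D.Kern

set_option autoImplicit false

open Finset Pool.Agent.H504R2
open scoped WithZero

namespace Pool.Agent.H504D

variable {K : Type} [Field K] {v : Valuation K ℤᵐ⁰} {p q : ℕ}

/-- Self-maps of `K` that behave like a permutation of the residue field at every scale. -/
structure Tame (v : Valuation K ℤᵐ⁰) (φ : K → K) where
  h : K → K → K
  eq : ∀ x y, φ x - φ y = (x - y) * h x y
  symm : ∀ x y, h x y = h y x
  ne : ∀ x y, x ≠ y → h x y ≠ 0
  mono : ∀ x y z, x ≠ z → v (x - y) ≤ v (x - z) → v (h x y) ≤ v (h x z)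
  cont : ∀ a b x x' y, a ≠ b → v (x - a) ≤ v (a - b) → v (x' - a) ≤ v (a - b) →
    v (y - a) ≤ v (a - b) → v (x - x') < v (a - b) → v (h x y - h x' y) < v (h a b)

namespace Tame

variable {φ ψ : K → K}

lemma pos_of_ne {a b : K} (h : a ≠ b) : 0 < v (a - b) :=
  zero_lt_iff.2 ((Valuation.ne_zero_iff v).2 (sub_ne_zero.2 h))

/-- the cofactor is largest at pairs of maximal distance -/
lemma le_max (T : Tame v φ) {a b x y : K} (hab : a ≠ b) (hx : v (x - a) ≤ v (a - b))
    (hy : v (y - a) ≤ v (a - b)) : v (T.h x y) ≤ v (T.h a b) := by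
  have hR := pos_of_ne (v := v) hab
  have hxy : v (x - y) ≤ v (a - b) := by
    have : x - y = (x - a) - (y - a) := by ring
    rw [this]
    exact (Valuation.map_sub _ _ _).trans (max_le hx hy)
  rcases hx.lt_or_eq with h | h
  · have hxb : v (x - b) = v (a - b) := by
      have : x - b = (x - a) + (a - b) := by ring
      rw [this]
      exact Valuation.map_add_eq_of_lt_right _ h
    have hne : x ≠ b := by
      rintro rfl
      rw [sub_self, map_zero] at hxb
      exact hR.ne hxb
    calc v (T.h x y) ≤ v (T.h x b) := T.mono x y b hne (by rw [hxb]; exact hxy)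
      _ = v (T.h b x) := by rw [T.symm]
      _ ≤ v (T.h b a) := T.mono b x a hab.symm (by
          rw [Valuation.map_sub_swap, hxb, Valuation.map_sub_swap])
      _ = v (T.h a b) := by rw [T.symm]
  · have hne : x ≠ a := by
      rintro rfl
      rw [sub_self, map_zero] at h
      exact hR.ne h
    calc v (T.h x y) ≤ v (T.h x a) := T.mono x y a hne (by rw [h]; exact hxy)
      _ = v (T.h a x) := by rw [T.symm]
      _ ≤ v (T.h a b) := T.mono a x b hab (by rw [Valuation.map_sub_swap]; exact hx)

lemma map_ne (T : Tame v φ) {a b : K} (hab : a ≠ b) : φ a ≠ φ b := by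
  intro h
  have := T.eq a b
  rw [h, sub_self] at this
  exact (mul_ne_zero (sub_ne_zero.2 hab) (T.ne a b hab)) this.symm

lemma v_map (T : Tame v φ) (a b : K) : v (φ a - φ b) = v (a - b) * v (T.h a b) := by
  rw [T.eq, map_mul]

/-- composition -/
def comp (T : Tame v φ) (S : Tame v ψ) : Tame v (fun x => ψ (φ x)) where
  h x y := T.h x y * S.h (φ x) (φ y)
  eq x y := by rw [S.eq, T.eq]; ring
  symm x y := by rw [T.symm, S.symm]
  ne x y hxy := mul_ne_zero (T.ne x y hxy) (S.ne _ _ (T.map_ne hxy))
  mono x y z hxz hle := by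
    have h1 := T.mono x y z hxz hle
    rw [map_mul, map_mul]
    apply mul_le_mul' h1
    apply S.mono _ _ _ (T.map_ne hxz)
    rw [T.v_map, T.v_map]
    exact mul_le_mul' hle h1
  cont a b x x' y hab hx hx' hy hxx := by
    have hR := pos_of_ne (v := v) hab
    have hφ : ∀ z, v (z - a) ≤ v (a - b) → v (φ z - φ a) ≤ v (φ a - φ b) := by
      intro z hz
      rw [T.v_map, T.v_map]
      exact mul_le_mul' hz (T.le_max hab hz (by simp))
    have hne := T.map_ne hab
    have h1 := T.cont a b x x' y hab hx hx' hy hxx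
    have hpos : 0 < v (T.h a b) := zero_lt_iff.2 ((Valuation.ne_zero_iff v).2 (T.ne a b hab))
    have h2 : v (φ x - φ x') < v (φ a - φ b) := by
      rw [T.v_map, T.v_map]
      calc v (x - x') * v (T.h x x') ≤ v (x - x') * v (T.h a b) :=
            mul_le_mul' le_rfl (T.le_max hab hx hx')
        _ < v (a - b) * v (T.h a b) := mul_lt_mul_of_pos_right hxx hpos
    have h3 := S.cont (φ a) (φ b) (φ x) (φ x') (φ y) hne (hφ x hx) (hφ x' hx') (hφ y hy) h2
    have h4 : v (S.h (φ x) (φ y)) ≤ v (S.h (φ a) (φ b)) := S.le_max hne (hφ x hx) (hφ y hy)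
    have h5 : v (T.h x' y) ≤ v (T.h a b) := T.le_max hab hx' hy
    have hpos2 : 0 < v (S.h (φ a) (φ b)) := zero_lt_iff.2 ((Valuation.ne_zero_iff v).2 (S.ne _ _ hne))
    have e : T.h x y * S.h (φ x) (φ y) - T.h x' y * S.h (φ x') (φ y) =
        (T.h x y - T.h x' y) * S.h (φ x) (φ y) + T.h x' y * (S.h (φ x) (φ y) - S.h (φ x') (φ y)) := by
      ring
    rw [e, map_mul v (T.h a b)]
    apply Valuation.map_add_lt
    · rw [map_mul]
      calc v (T.h x y - T.h x' y) * v (S.h (φ x) (φ y)) ≤ v (T.h x y - T.h x' y) * v (S.h (φ a) (φ b)) :=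
            mul_le_mul' le_rfl h4
        _ < _ := mul_lt_mul_of_pos_right h1 hpos2
    · rw [map_mul]
      calc v (T.h x' y) * v (S.h (φ x) (φ y) - S.h (φ x') (φ y)) ≤
            v (T.h a b) * v (S.h (φ x) (φ y) - S.h (φ x') (φ y)) := mul_le_mul' h5 le_rfl
        _ < _ := mul_lt_mul_of_pos_left h3 hpos

/-- affine maps -/
def affine (α β : K) (hα : α ≠ 0) : Tame v (fun x => α * x + β) where
  h _ _ := α
  eq x y := by ring
  symm _ _ := rfl
  ne _ _ _ := hα
  mono _ _ _ _ _ := le_rfl
  cont a b x x' y hab _ _ _ _ := by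
    rw [sub_self, map_zero]
    exact zero_lt_iff.2 ((Valuation.ne_zero_iff v).2 hα)

lemma W3_pos {A X Y : K} (h : X ≠ Y) : 0 < W3 v A X Y := by
  have h1 := pos_of_ne (v := v) h
  have h2 : v (X - Y) ^ 2 ≤ W3 v A X Y := by
    unfold W3
    refine le_trans ?_ (le_max_left _ _)
    rcases le_total (v X) (v Y) with h3 | h3
    · exact (pow_le_pow_left₀ zero_le ((Valuation.map_sub v X Y).trans (max_le h3 le_rfl)) 2).trans (le_max_right _ _)
    · exact (pow_le_pow_left₀ zero_le ((Valuation.map_sub v X Y).trans (max_le le_rfl h3)) 2).trans (le_max_left _ _)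
  exact lt_of_lt_of_le (pow_pos h1 2) h2

/-- Dickson polynomials (power maps when `A = 0`) -/
noncomputable def dickson (hv : IsPlace v p q) (hp : p.Prime) (hq : ∃ f, q = p ^ f) {m : ℕ} {A : K}
    (hm : Adm p q m A) : Tame v (fun x => dk A x m) where
  h x y := kh A x y m
  eq x y := dk_sub A x y m
  symm x y := kh_comm A x y m
  ne x y hxy := by
    intro h0
    have := v_kh hv hp hq hm x y
    rw [h0, map_zero, zero_pow two_ne_zero] at this
    exact (pow_pos (W3_pos hxy) _).ne this
  mono x y z hxz hle := by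
    have h1 := v_kh hv hp hq hm x y
    have h2 := v_kh hv hp hq hm x z
    have h3 : W3 v A x y ≤ W3 v A x z := by
      unfold W3
      apply max_le _ (le_max_right _ _)
      apply max_le ((le_max_left _ _).trans (le_max_left _ _))
      have h4 : v y ≤ max (v x) (v z) := by
        have e : y = x - (x - y) := by ring
        calc v y = v (x - (x - y)) := by rw [← e]
          _ ≤ max (v x) (v (x - y)) := Valuation.map_sub _ _ _
          _ ≤ max (v x) (v z) := max_le (le_max_left _ _) (hle.trans (Valuation.map_sub _ _ _))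
      rcases le_total (v x) (v z) with h5 | h5
      · rw [max_eq_right h5] at h4
        exact (pow_le_pow_left₀ zero_le h4 2).trans ((le_max_right _ _).trans (le_max_left _ _))
      · rw [max_eq_left h5] at h4
        exact (pow_le_pow_left₀ zero_le h4 2).trans ((le_max_left _ _).trans (le_max_left _ _))
    have h4 : v (kh A x y m) ^ 2 ≤ v (kh A x z m) ^ 2 := by
      rw [h1, h2]; exact pow_le_pow_left₀ zero_le h3 _
    exact le_of_sq_le_sq' h4
  cont a b x x' y hab hx hx' hy hxx := by
    have hM := W3_pos (v := v) (A := A) hab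
    have hmax : max (v a) (v b) ^ 2 ≤ W3 v A a b := by
      unfold W3
      refine le_trans ?_ (le_max_left _ _)
      rcases le_total (v a) (v b) with h3 | h3
      · rw [max_eq_right h3]; exact le_max_right _ _
      · rw [max_eq_left h3]; exact le_max_left _ _
    have hR : v (a - b) ≤ max (v a) (v b) := Valuation.map_sub _ _ _
    have hz : ∀ z, v (z - a) ≤ v (a - b) → v z ^ 2 ≤ W3 v A a b := by
      intro z hz
      have h4 : v z ≤ max (v a) (v b) := by
        have e : z = (z - a) + a := by ring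
        calc v z = v ((z - a) + a) := by rw [← e]
          _ ≤ max (v (z - a)) (v a) := Valuation.map_add _ _ _
          _ ≤ max (v a) (v b) := max_le (hz.trans hR) (le_max_left _ _)
      exact (pow_le_pow_left₀ zero_le h4 2).trans hmax
    have hA : v A ≤ W3 v A a b := le_max_right _ _
    have hxx2 : v (x - x') ^ 2 < W3 v A a b :=
      lt_of_lt_of_le (pow_lt_pow_left₀ hxx zero_le two_ne_zero)
        ((pow_le_pow_left₀ zero_le hR 2).trans hmax)
    obtain ⟨m', hm'⟩ : ∃ m', m = m' + 1 := ⟨m - 1, by have := hm.pos; omega⟩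
    have h1 := kh_sub_lt hv (hz x hx) (hz x' hx') (hz y hy) hA hM hxx2 m'
    have h2 := v_kh hv hp hq hm a b
    rw [hm'] at h2 ⊢
    rw [Nat.add_sub_cancel] at h2
    rw [← h2] at h1
    exact lt_of_pow_lt_pow_left₀ 2 zero_le h1
where
  le_of_sq_le_sq' {a b : ℤᵐ⁰} (h : a ^ 2 ≤ b ^ 2) : a ≤ b := by
    by_contra hcon
    rw [not_le] at hcon
    exact absurd h (not_le.2 (pow_lt_pow_left₀ hcon zero_le two_ne_zero))

end Tame

end Pool.Agent.H504D
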